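import Pool.Agent.Lib_helper67.GKC.F

/-!
MP_49c8ed_al. The dimension of a Hopf algebra spanned by the products `u g`.
-/

set_option autoImplicit false

universe u v

namespace Pool.Agent.GKC

open TensorProduct Pool.Agent.GK Filter Topology

section
variable (k : Type u) [Field k] {H : Type v} [Ring H] [HopfAlgebra k H]

variable (H) in
/-- `H` is spanned by the products of elements of the irreducible component of `1` with group-likes -/
def Spl : Prop :=
  ∀ x : H, x ∈ Submodule.span k {z : H | ∃ n, ∃ u ∈ U k H n, ∃ g : GroupLike k H, z = u * g.val}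

variable {k}

/-- every element lies in some `D S` -/
theorem Spl.cover_one (h : Spl k H) (x : H) : ∃ (D : Submodule k H) (S : Finset (GroupLike k H)),
    Flagged k D ∧ x ∈ D * kS k (S : Set (GroupLike k H)) := by
  classical
  refine Submodule.span_induction (p := fun x _ => ∃ (D : Submodule k H)
    (S : Finset (GroupLike k H)), Flagged k D ∧ x ∈ D * kS k (S : Set (GroupLike k H)))
    ?_ ?_ ?_ ?_ (h x)
  · rintro _ ⟨n, u, hu, g, rfl⟩
    obtain ⟨D, hD, huD⟩ := exists_flagged k hu
    refine ⟨D, {g}, hD, Submodule.mul_mem_mul huD (Submodule.subset_span ⟨g, by simp, rfl⟩)⟩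
  · exact ⟨1, ∅, Flagged.one k, Submodule.zero_mem _⟩
  · rintro x y _ _ ⟨D, S, hD, hx⟩ ⟨D', S', hD', hy⟩
    refine ⟨D ⊔ D', S ∪ S', hD.sup hD', Submodule.add_mem _ ?_ ?_⟩
    · refine (mul_le_mul' le_sup_left (kS_mono k ?_)) hx
      exact fun s hs => Finset.mem_coe.2 (Finset.mem_union_left _ hs)
    · refine (mul_le_mul' le_sup_right (kS_mono k ?_)) hy
      exact fun s hs => Finset.mem_coe.2 (Finset.mem_union_right _ hs)
  · rintro a x _ ⟨D, S, hD, hx⟩
    exact ⟨D, S, hD, Submodule.smul_mem _ _ hx⟩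

theorem Spl.cover (h : Spl k H) {V : Submodule k H} (hV : V.FG) :
    ∃ (D : Submodule k H) (S : Finset (GroupLike k H)), Flagged k D ∧
      V ≤ D * kS k (S : Set (GroupLike k H)) := by
  classical
  obtain ⟨t, rfl⟩ := hV
  induction t using Finset.induction_on with
  | empty => exact ⟨1, ∅, Flagged.one k, by simp⟩
  | insert x t hx ih =>
    obtain ⟨D, S, hD, h1⟩ := ih
    obtain ⟨D', S', hD', h2⟩ := h.cover_one x
    refine ⟨D' ⊔ D, S' ∪ S, hD'.sup hD, ?_⟩
    rw [Finset.coe_insert, Submodule.span_insert, sup_le_iff,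
      Submodule.span_singleton_le_iff_mem]
    constructor
    · refine (mul_le_mul' le_sup_left (kS_mono k ?_)) h2
      exact fun s hs => Finset.mem_coe.2 (Finset.mem_union_left _ hs)
    · refine h1.trans (mul_le_mul' le_sup_right (kS_mono k ?_))
      exact fun s hs => Finset.mem_coe.2 (Finset.mem_union_right _ hs)

variable (k)

variable (H) in
/-- the dimension of the group algebra -/
theorem GKdim_group : GKdim k (MonoidAlgebra k (GroupLike k H)) =
    ⨆ S : {S : Finset (GroupLike k H) // Sym k S},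
      asm_L k (kS k (S.1 : Set (GroupLike k H))) := by
  classical
  apply le_antisymm
  · refine iSup₂_le fun V hV => ?_
    change asm_L k V ≤ _
    obtain ⟨t, ht⟩ := hV.2
    obtain ⟨S, hS, hSt⟩ := exists_sym k (t.biUnion fun x => x.coeff.support)
    refine le_trans ?_ (le_iSup (fun S : {S : Finset (GroupLike k H) // Sym k S} =>
      asm_L k (kS k (S.1 : Set (GroupLike k H)))) ⟨S, hS⟩)
    rw [← asm_L_map]
    refine asm_L_mono k ?_ (kS_fg k S)
    rw [← ht, Submodule.map_span_le]
    intro x hx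
    have h1 : (grp k (H := H)) x = x.coeff.sum fun g a => a • g.val := by
      rw [grp, MonoidAlgebra.lift_apply]
      rfl
    change (grp k (H := H)) x ∈ _
    rw [h1]
    refine Submodule.sum_mem _ fun g hg => Submodule.smul_mem _ _ (Submodule.subset_span ⟨g, ?_, rfl⟩)
    exact hSt (Finset.mem_coe.2 (Finset.mem_biUnion.2 ⟨x, hx, hg⟩))
  · refine iSup_le fun S => ?_
    set V : Submodule k (MonoidAlgebra k (GroupLike k H)) :=
      Submodule.span k (MonoidAlgebra.of k (GroupLike k H) '' (S.1 : Set (GroupLike k H))) with hV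
    have h1 : V.map (grp k (H := H)).toLinearMap = kS k (S.1 : Set (GroupLike k H)) := by
      rw [hV, Submodule.map_span, kS, Set.image_image]
      congr 1
      refine Set.image_congr fun g _ => ?_
      exact grp_of k g
    rw [← h1, asm_L_map]
    refine le_GKdim k ?_ (Submodule.fg_span (S.1.finite_toSet.image _))
    rw [Submodule.one_le]
    refine Submodule.subset_span ⟨1, Finset.mem_coe.2 S.2.1, ?_⟩
    exact map_one _

/-- the dimension of a Hopf algebra which is spanned by the products `u g` -/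
theorem gen_pr2 (h : Spl k H) (htop : GKdim k H ≠ ⊤) : ∃ m : ℕ,
    (⨆ D : {D : Submodule k H // Flagged k D}, asm_L k D.1) = m ∧
    GKdim k H = GKdim k (MonoidAlgebra k (GroupLike k H)) + m := by
  classical
  have hle : ∀ D : Submodule k H, Flagged k D → asm_L k D ≤ GKdim k H := fun D hD =>
    le_GKdim k (Submodule.one_le.2 hD.one_mem) hD.fg
  have hne : ∀ D : Submodule k H, Flagged k D → asm_L k D ≠ ⊤ := fun D hD h1 =>
    htop (top_le_iff.1 (h1 ▸ hle D hD))
  have : Nonempty {D : Submodule k H // Flagged k D} := ⟨⟨1, Flagged.one k⟩⟩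
  have : Nonempty {S : Finset (GroupLike k H) // Sym k S} := by
    obtain ⟨S, hS, -⟩ := exists_sym k (∅ : Finset (GroupLike k H))
    exact ⟨⟨S, hS⟩⟩
  rcases asm_sup (fun D : {D : Submodule k H // Flagged k D} => asm_L k D.1) (fun D => by
      rcases D.2.growth with h1 | ⟨r, c, C, hc, hb⟩
      · exact Or.inl h1
      · exact Or.inr ⟨r, asm_L_eq k hc (fun n hn => (hb n hn).1) (fun n hn => (hb n hn).2)⟩)
    with h1 | ⟨m, hm⟩
  · exfalso
    apply htop
    rw [← top_le_iff, ← h1]
    exact iSup_le fun D => hle D.1 D.2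
  refine ⟨m, hm, ?_⟩
  rw [GKdim_group, ← hm]
  -- one stable flagged subspace
  have stab : ∀ S : Finset (GroupLike k H), Sym k S → ∀ D : Submodule k H, Flagged k D →
      ∃ E : Submodule k H, Flagged k E ∧ Stb k (S : Set (GroupLike k H)) E ∧ D ≤ E := by
    intro S hS D hD
    rcases stable_flag k S hS.1 hD with h2 | h2
    · exact absurd h2 htop
    · exact h2
  apply le_antisymm
  · refine iSup₂_le fun V hV => ?_
    change asm_L k V ≤ _
    obtain ⟨D, S₀, hD, hVD⟩ := h.cover hV.2
    obtain ⟨S, hS, hSS⟩ := exists_sym k S₀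
    obtain ⟨E, hE, hES, hDE⟩ := stab S hS D hD
    have h2 : V ≤ E * kS k (S : Set (GroupLike k H)) :=
      hVD.trans (mul_le_mul' hDE (kS_mono k hSS))
    refine (asm_L_mono k h2 (hE.fg.mul (kS_fg k S))).trans ?_
    rw [asm_L_mul k hS hE hES (hne E hE)]
    exact add_le_add
      (le_iSup (fun S : {S : Finset (GroupLike k H) // Sym k S} =>
        asm_L k (kS k (S.1 : Set (GroupLike k H)))) ⟨S, hS⟩)
      (le_iSup (fun D : {D : Submodule k H // Flagged k D} => asm_L k D.1) ⟨E, hE⟩)
  · rw [ENNReal.iSup_add]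
    refine iSup_le fun S => ?_
    rw [ENNReal.add_iSup]
    refine iSup_le fun D => ?_
    obtain ⟨E, hE, hES, hDE⟩ := stab S.1 S.2 D.1 D.2
    calc asm_L k (kS k (S.1 : Set (GroupLike k H))) + asm_L k D.1
        ≤ asm_L k (kS k (S.1 : Set (GroupLike k H))) + asm_L k E :=
          add_le_add le_rfl (asm_L_mono k hDE hE.fg)
      _ = asm_L k (E * kS k (S.1 : Set (GroupLike k H))) :=
          (asm_L_mul k S.2 hE hES (hne E hE)).symm
      _ ≤ GKdim k H := by
          refine le_GKdim k ?_ (hE.fg.mul (kS_fg k S.1))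
          exact one_le_mul (Submodule.one_le.2 hE.one_mem) (one_le_kS k (Finset.mem_coe.2 S.2.1))

end

end Pool.Agent.GKC
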