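import Pool.Agent.Lib_helper67.GKC.U

/-!
MP_49c8ed_al. Powers of flagged subspaces.
-/

set_option autoImplicit false

universe u v

namespace Pool.Agent.GKC

open TensorProduct Pool.Agent.GK Filter Topology

section
variable {k : Type u} [Field k] {H : Type v} [Ring H] [Bialgebra k H]

/-- the growth of the powers of a flagged subspace -/
theorem Flagged.growth {D : Submodule k H} (h : Flagged k D) :
    asm_L k D = ⊤ ∨ ∃ (r : ℕ) (c C : ℝ), 0 < c ∧ ∀ n : ℕ, 1 ≤ n →
      c * (n : ℝ) ^ r ≤ (Module.finrank k ↥(D ^ n) : ℝ) ∧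
      (Module.finrank k ↥(D ^ n) : ℝ) ≤ C * (n : ℝ) ^ r := by
  obtain ⟨m, c, hcc, hD⟩ := h
  obtain ⟨F, w, M, hF, hF1, hF2⟩ := filt_pr k c hcc
  rw [hD] at hF1 hF2
  have hDfg : D.FG := by
    rw [← hD]
    exact Submodule.fg_span ((Set.finite_range c).insert 1)
  have hfin : ∀ n, Module.Finite k ↥(D ^ n) := fun n => Module.Finite.iff_fg.2 (hDfg.pow n)
  have hfinF : ∀ n, Module.Finite k ↥(F n) := fun n => Module.Finite.iff_fg.2 (hF.fg n)
  have hle1 : ∀ n, Module.finrank k ↥(F n) ≤ Module.finrank k ↥(D ^ n) := fun n => by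
    have := hfin n
    exact Submodule.finrank_mono (hF1 n)
  have hle2 : ∀ n, Module.finrank k ↥(D ^ n) ≤ Module.finrank k ↥(F ((M + 1) * n)) := fun n => by
    have := hfinF ((M + 1) * n)
    exact Submodule.finrank_mono ((hF2 n).trans (hF.mono (Nat.mul_le_mul_right n (Nat.le_succ M))))
  rcases dich_pr k hF with ⟨W, hind⟩ | ⟨d, x, w', hlie⟩
  · left
    refine asm_L_top k (W := W + 1) (Nat.succ_pos _) (fun m hm => ?_)
    obtain ⟨x, n, hx, hn⟩ := hind m
    refine (ind_pr k hF hx).trans (le_trans ?_ (hle1 _))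
    have := hfinF ((W + 1) * m ^ 2)
    refine Submodule.finrank_mono (hF.mono ?_)
    calc ∑ i, n i ≤ ∑ _i : Fin m, W * m :=
          Finset.sum_le_sum (fun i _ => (hn i).trans (Nat.mul_le_mul_left W i.isLt))
      _ = m * (W * m) := by simp
      _ = W * m ^ 2 := by ring
      _ ≤ (W + 1) * m ^ 2 := Nat.mul_le_mul_right _ (Nat.le_succ W)
  · right
    obtain ⟨E, hE, h0, hcard⟩ := pbw_pr k hF.zero hF.mono hF.mul hlie
    obtain ⟨r, c', C, hc', hb⟩ := dick_pr w' hlie.wpos E hE h0
    refine ⟨r, c', C * ((M : ℝ) + 1) ^ r, hc', fun n hn => ⟨?_, ?_⟩⟩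
    · have h1 := (hb n hn).1
      rw [← hcard n] at h1
      exact h1.trans (by exact_mod_cast hle1 n)
    · have hn' : 1 ≤ (M + 1) * n := Nat.one_le_iff_ne_zero.2 (by positivity)
      have h1 := (hb _ hn').2
      rw [← hcard _] at h1
      calc (Module.finrank k ↥(D ^ n) : ℝ) ≤ (Module.finrank k ↥(F ((M + 1) * n)) : ℝ) := by
            exact_mod_cast hle2 n
        _ ≤ C * (((M + 1) * n : ℕ) : ℝ) ^ r := h1
        _ = C * ((M : ℝ) + 1) ^ r * (n : ℝ) ^ r := by
            push_cast
            rw [mul_pow]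
            ring

/-- a filtration with `F 0 = k 1` is inside of the irreducible component -/
theorem filt_le_U {F : ℕ → Submodule k H} (h0 : F 0 = Submodule.span k {1}) (hm : Monotone F)
    (hΔ : ∀ n : ℕ, ∀ x ∈ F n, Coalgebra.comul (R := k) x ∈ TT k F n) (n : ℕ) :
    F n ≤ U k H n := by
  induction n with
  | zero => rw [h0, U]
  | succ n ih =>
    intro x hx
    rw [mem_U_succ]
    intro f hf
    apply ih
    rw [FLAG_L_apply]
    have h1 : TT k F (n + 1) ≤ (F n).comap ((TensorProduct.rid k H).toLinearMap ∘ₗ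
        LinearMap.lTensor H f) := by
      unfold TT
      rw [Submodule.span_le]
      rintro _ ⟨a, b, u, hu, v, hv, hab, rfl⟩
      simp only [SetLike.mem_coe, Submodule.mem_comap, LinearMap.comp_apply,
        LinearEquiv.coe_coe, LinearMap.lTensor_tmul, TensorProduct.rid_tmul]
      rcases Nat.eq_zero_or_pos b with rfl | hb
      · rw [h0, Submodule.mem_span_singleton] at hv
        obtain ⟨c, rfl⟩ := hv
        rw [map_smul, hf, smul_zero, zero_smul]
        exact Submodule.zero_mem _
      · exact Submodule.smul_mem _ _ (hm (by omega) hu)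
    exact h1 (hΔ (n + 1) x hx)

/-- the product of two subcoalgebras is a subcoalgebra -/
theorem sub_mul {A B : Submodule k H} (hA : IsSubcoalgebra k A) (hB : IsSubcoalgebra k B) :
    IsSubcoalgebra k (A * B) := by
  have h1 : tsp k A A * tsp k B B ≤ tsp k (A * B) (A * B) := by
    rw [Submodule.mul_le]
    intro s hs t ht
    have h2 : tsp k A A ≤ (tsp k (A * B) (A * B)).comap (LinearMap.mulRight k t) := by
      rw [tsp, Submodule.map₂_le]
      intro a ha a' ha'
      have h3 : tsp k B B ≤ (tsp k (A * B) (A * B)).comap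
          (LinearMap.mulLeft k (a ⊗ₜ[k] a')) := by
        rw [tsp, Submodule.map₂_le]
        intro b hb b' hb'
        simp only [Submodule.mem_comap, LinearMap.mulLeft_apply, mk_apply,
          Algebra.TensorProduct.tmul_mul_tmul]
        exact Submodule.apply_mem_map₂ _ (Submodule.mul_mem_mul ha hb)
          (Submodule.mul_mem_mul ha' hb')
      exact h3 ht
    exact h2 hs
  intro x hx
  refine Submodule.mul_induction_on hx ?_ ?_
  · intro a ha b hb
    rw [Bialgebra.comul_mul]
    exact h1 (Submodule.mul_mem_mul (hA a ha) (hB b hb))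
  · intro y z hy hz
    rw [map_add]
    exact Submodule.add_mem _ hy hz

theorem sub_one_mem : IsSubcoalgebra k (1 : Submodule k H) := by
  intro x hx
  obtain ⟨a, rfl⟩ := Submodule.mem_one.1 hx
  rw [Algebra.algebraMap_eq_smul_one, map_smul, Bialgebra.comul_one,
    Algebra.TensorProduct.one_def]
  exact Submodule.smul_mem _ _ (Submodule.apply_mem_map₂ _ (Submodule.one_le.1 le_rfl)
    (Submodule.one_le.1 le_rfl))

theorem sub_pow {A : Submodule k H} (hA : IsSubcoalgebra k A) (n : ℕ) :
    IsSubcoalgebra k (A ^ n) := by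
  induction n with
  | zero =>
    rw [pow_zero]
    exact sub_one_mem
  | succ n ih =>
    rw [pow_succ]
    exact sub_mul ih hA

/-- the powers of a flagged subspace are flagged -/
theorem Flagged.pow {D : Submodule k H} (h : Flagged k D) (n : ℕ) : Flagged k (D ^ n) := by
  obtain ⟨m, c, hcc, hD⟩ := id h
  obtain ⟨F, w, M, hF, hF1, hF2⟩ := filt_pr k c hcc
  rw [hD] at hF1 hF2
  refine flagged_of_U k (n := M * n) (h.fg.pow n) (sub_pow h.sub n) ?_
    ((hF2 n).trans (filt_le_U hF.zero hF.mono hF.comul _))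
  exact (one_le_pow_of_one_le' (Submodule.one_le.2 h.one_mem) n) (Submodule.one_le.1 le_rfl)

end

end Pool.Agent.GKC
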