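import Pool.Agent.Lib_helper67.GKC.B

/-!
MP_49c8ed_al. The products of the irreducible component with the group-like elements.
-/

set_option autoImplicit false

universe u v

namespace Pool.Agent.GKC

open TensorProduct Pool.Agent.GK

section bialg
variable (k : Type u) [Field k] {H : Type v} [Ring H] [Bialgebra k H]

/-- the span of the group-likes in `S` -/
def kS (S : Set (GroupLike k H)) : Submodule k H := Submodule.span k (GroupLike.val '' S)

theorem L_mul_grp (f : Module.Dual k H) (x : H) (g : GroupLike k H) :
    FLAG_L k f (x * g.val) = FLAG_L k (f ∘ₗ LinearMap.mulRight k g.val) x * g.val := by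
  have h : ∀ t : H ⊗[k] H,
      TensorProduct.rid k H (LinearMap.lTensor H f (t * (g.val ⊗ₜ[k] g.val))) =
      TensorProduct.rid k H (LinearMap.lTensor H (f ∘ₗ LinearMap.mulRight k g.val) t) * g.val := by
    intro t
    induction t with
    | zero => simp
    | tmul a b => simp
    | add s t hs ht => simp only [map_add, add_mul, hs, ht]
  rw [FLAG_L_apply, FLAG_L_apply, Bialgebra.comul_mul, g.2.comul_eq_tmul_self, h]

theorem L_grp_mul (f : Module.Dual k H) (x : H) (g : GroupLike k H) :
    FLAG_L k f (g.val * x) = g.val * FLAG_L k (f ∘ₗ LinearMap.mulLeft k g.val) x := by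
  have h : ∀ t : H ⊗[k] H,
      TensorProduct.rid k H (LinearMap.lTensor H f ((g.val ⊗ₜ[k] g.val) * t)) =
      g.val * TensorProduct.rid k H (LinearMap.lTensor H (f ∘ₗ LinearMap.mulLeft k g.val) t) := by
    intro t
    induction t with
    | zero => simp
    | tmul a b => simp
    | add s t hs ht => simp only [map_add, mul_add, hs, ht]
  rw [FLAG_L_apply, FLAG_L_apply, Bialgebra.comul_mul, g.2.comul_eq_tmul_self, h]

/-- a functional with `f s ≠ 0` for one group-like `s` only -/
theorem exists_dual (s : GroupLike k H) : ∃ f : Module.Dual k H, f s.val ≠ 0 ∧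
    ∀ t : GroupLike k H, t ≠ s → f t.val = 0 := by
  have h1 : s.val ∉ Submodule.span k (GroupLike.val '' ({s}ᶜ : Set (GroupLike k H))) := by
    refine (linearIndep_groupLikeVal (R := k) (A := H)).notMem_span_image ?_
    simp
  obtain ⟨f, hf1, hf2⟩ := Submodule.exists_dual_map_eq_bot_of_notMem h1 inferInstance
  refine ⟨f, hf1, fun t ht => ?_⟩
  have : f t.val ∈ (Submodule.span k (GroupLike.val '' ({s}ᶜ : Set (GroupLike k H)))).map f :=
    Submodule.mem_map_of_mem (Submodule.subset_span ⟨t, by simpa using ht, rfl⟩)
  rw [hf2] at this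
  simpa using this

theorem L_grp (f : Module.Dual k H) (s : GroupLike k H) : FLAG_L k f s.val = f s.val • s.val := by
  rw [FLAG_L_apply, s.2.comul_eq_tmul_self]
  simp

/-- the irreducible component of `1` meets the group algebra in `k 1` -/
theorem U_inf_grp {n : ℕ} {x : H} (hx : x ∈ U k H n)
    (hx' : x ∈ Submodule.span k (Set.range (GroupLike.val (R := k) (A := H)))) :
    x ∈ U k H 0 := by
  induction n generalizing x with
  | zero => exact hx
  | succ n ih =>
    -- the other coefficients are zero
    have key : ∀ s : GroupLike k H, s ≠ 1 → ∀ f : Module.Dual k H, f s.val ≠ 0 →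
        (∀ t : GroupLike k H, t ≠ s → f t.val = 0) → f x = 0 := by
      intro s hs f hf1 hf2
      have h1 : FLAG_L k f x = f x • s.val := by
        refine Submodule.span_induction (p := fun x _ => FLAG_L k f x = f x • s.val)
          ?_ ?_ ?_ ?_ hx'
        · rintro _ ⟨t, rfl⟩
          rw [L_grp]
          by_cases ht : t = s
          · rw [ht]
          · rw [hf2 t ht, zero_smul, zero_smul]
        · simp
        · intro y z _ _ hy hz
          rw [map_add, map_add, hy, hz, add_smul]
        · intro a y _ hy
          rw [map_smul, map_smul, hy, smul_smul, smul_eq_mul]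
      have hf3 : f 1 = 0 := hf2 1 (Ne.symm hs)
      have h2 := (mem_U_succ k).1 hx f hf3
      rw [h1] at h2
      have h3 := ih h2 (Submodule.smul_mem _ _ (Submodule.subset_span ⟨s, rfl⟩))
      obtain ⟨a, ha⟩ := (mem_U_zero k).1 h3
      have h4 := congrArg f ha
      rw [map_smul, map_smul, hf3, smul_zero, smul_eq_mul] at h4
      exact (mul_eq_zero.1 h4.symm).resolve_right hf1
    rw [Finsupp.mem_span_range_iff_exists_finsupp] at hx'
    obtain ⟨c, rfl⟩ := hx'
    rw [Finsupp.sum]
    refine Submodule.sum_mem _ fun s hs => ?_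
    by_cases hs1 : s = 1
    · rw [hs1]
      exact Submodule.smul_mem _ _ (one_mem_U k 0)
    · exfalso
      obtain ⟨f, hf1, hf2⟩ := exists_dual k s
      have h1 := key s hs1 f hf1 hf2
      rw [Finsupp.sum, map_sum, Finset.sum_eq_single s] at h1
      · rw [map_smul, smul_eq_mul] at h1
        exact (Finsupp.mem_support_iff.1 hs) ((mul_eq_zero.1 h1).resolve_right hf1)
      · intro t _ ht
        rw [map_smul, hf2 t ht, smul_zero]
      · exact fun h => absurd hs h

theorem mem_of_dual (W : Submodule k H) {x : H}
    (h : ∀ f : Module.Dual k H, (∀ w ∈ W, f w = 0) → f x = 0) : x ∈ W := by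
  by_contra hx
  obtain ⟨f, hf1, hf2⟩ := Submodule.exists_dual_map_eq_bot_of_notMem hx inferInstance
  apply hf1
  apply h
  intro w hw
  have : f w ∈ W.map f := Submodule.mem_map_of_mem hw
  rw [hf2] at this
  simpa using this

end bialg

section hopf
variable (k : Type u) [Field k] {H : Type v} [Ring H] [HopfAlgebra k H]

theorem grp_mul_inv (g : GroupLike k H) : g.val * (g⁻¹).val = 1 := by
  rw [← GroupLike.val_mul, mul_inv_cancel, GroupLike.val_one]

theorem grp_inv_mul (g : GroupLike k H) : (g⁻¹).val * g.val = 1 := by
  rw [← GroupLike.val_mul, inv_mul_cancel, GroupLike.val_one]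

/-- the sum of the products `U g` is direct -/
theorem direct (S : Finset (GroupLike k H)) (N : ℕ) (x : GroupLike k H → H)
    (hx : ∀ g ∈ S, x g ∈ U k H N) (h0 : ∑ g ∈ S, x g * g.val = 0) : ∀ g ∈ S, x g = 0 := by
  have base : ∀ x : GroupLike k H → H, (∀ g ∈ S, x g ∈ U k H 0) →
      ∑ g ∈ S, x g * g.val = 0 → ∀ g ∈ S, x g = 0 := by
    intro x hx h0
    have h1 : ∀ g : GroupLike k H, ∃ a : k, g ∈ S → a • (1 : H) = x g := by
      intro g
      by_cases hg : g ∈ S
      · obtain ⟨a, ha⟩ := (mem_U_zero k).1 (hx g hg)
        exact ⟨a, fun _ => ha⟩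
      · exact ⟨0, fun h => absurd h hg⟩
    choose a ha using h1
    have h2 : ∑ g ∈ S, a g • g.val = 0 := by
      rw [← h0]
      refine Finset.sum_congr rfl fun g hg => ?_
      rw [← ha g hg, smul_mul_assoc, one_mul]
    intro g hg
    have h3 := (linearIndependent_iff'.1 (linearIndep_groupLikeVal (R := k) (A := H))) S a h2 g hg
    rw [← ha g hg, h3, zero_smul]
  induction N generalizing x with
  | zero => exact base x hx h0
  | succ N ih =>
    refine base x (fun g hg => ?_) h0
    refine U_inf_grp k (hx g hg) ?_
    set W : Submodule k H := Submodule.span k (GroupLike.val '' (S : Set (GroupLike k H))) with hW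
    have h1 : x g * g.val ∈ W := by
      refine mem_of_dual k W fun f hf => ?_
      have hfS : ∀ s ∈ S, f s.val = 0 := fun s hs => hf _ (Submodule.subset_span ⟨s, hs, rfl⟩)
      have h2 := ih (fun g => FLAG_L k (f ∘ₗ LinearMap.mulRight k g.val) (x g)) (fun s hs => by
        refine (mem_U_succ k).1 (hx s hs) _ ?_
        rw [LinearMap.comp_apply, LinearMap.mulRight_apply, one_mul]
        exact hfS s hs) (by
        have h3 := congrArg (FLAG_L k f) h0
        rw [map_sum, map_zero] at h3
        rw [← h3]
        exact Finset.sum_congr rfl fun s _ => (L_mul_grp k f (x s) s).symm) g hg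
      have h4 := FLAG_counitL k (f ∘ₗ LinearMap.mulRight k g.val) (x g)
      rw [h2, map_zero] at h4
      rw [LinearMap.comp_apply, LinearMap.mulRight_apply] at h4
      exact h4.symm
    have h5 : x g = x g * g.val * (g⁻¹).val := by
      rw [mul_assoc, grp_mul_inv, mul_one]
    rw [h5]
    have h6 : W ≤ (Submodule.span k (Set.range (GroupLike.val (R := k) (A := H)))).comap
        (LinearMap.mulRight k (g⁻¹).val) := by
      rw [hW, Submodule.span_le]
      rintro _ ⟨s, hs, rfl⟩
      exact Submodule.subset_span ⟨s * g⁻¹, rfl⟩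
    exact h6 h1

/-- the sum over `T` of the multiples of the components -/
noncomputable def comb (T : Finset (GroupLike k H)) (E : Submodule k H) :
    (T → E) →ₗ[k] H where
  toFun x := ∑ g : T, (x g).val * g.val.val
  map_add' x y := by
    simp only [Pi.add_apply, Submodule.coe_add, add_mul, Finset.sum_add_distrib]
  map_smul' a x := by
    simp only [Pi.smul_apply, Submodule.coe_smul, smul_mul_assoc, RingHom.id_apply,
      Finset.smul_sum]

theorem comb_inj (T : Finset (GroupLike k H)) {E : Submodule k H} {N : ℕ} (hE : E ≤ U k H N) :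
    Function.Injective (comb k T E) := by
  classical
  rw [injective_iff_map_eq_zero]
  intro x hx
  have h1 := direct k T N (fun g => if h : g ∈ T then (x ⟨g, h⟩).val else 0) (fun g hg => by
    simp only [hg, dif_pos]
    exact hE (x ⟨g, hg⟩).2) (by
    rw [← hx]
    change _ = ∑ g : T, (x g).val * g.val.val
    rw [← Finset.sum_coe_sort T]
    refine Finset.sum_congr rfl fun g _ => ?_
    simp)
  funext g
  have h2 := h1 g.val g.2
  simp only [g.2, dif_pos] at h2
  exact Subtype.ext h2

theorem comb_range (T : Finset (GroupLike k H)) (E : Submodule k H) :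
    LinearMap.range (comb k T E) = E * kS k (T : Set (GroupLike k H)) := by
  classical
  apply le_antisymm
  · rintro _ ⟨x, rfl⟩
    refine Submodule.sum_mem _ fun g _ => ?_
    exact Submodule.mul_mem_mul (x g).2 (Submodule.subset_span ⟨g.val, g.2, rfl⟩)
  · rw [Submodule.mul_le]
    intro e he t ht
    have h1 : kS k (T : Set (GroupLike k H)) ≤ (LinearMap.range (comb k T E)).comap
        (LinearMap.mulLeft k e) := by
      rw [kS, Submodule.span_le]
      rintro _ ⟨g, hg, rfl⟩
      refine ⟨Pi.single ⟨g, hg⟩ ⟨e, he⟩, ?_⟩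
      change ∑ g' : T, ((Pi.single ⟨g, hg⟩ ⟨e, he⟩ : T → E) g').val * g'.val.val = e * g.val
      rw [Finset.sum_eq_single ⟨g, hg⟩]
      · simp
      · intro g' _ hg'
        rw [Pi.single_eq_of_ne hg']
        simp
      · exact fun h => absurd (Finset.mem_univ _) h
    exact h1 ht

theorem finrank_mul (T : Finset (GroupLike k H)) {E : Submodule k H} (hfg : E.FG) {N : ℕ}
    (hE : E ≤ U k H N) :
    Module.finrank k ↥(E * kS k (T : Set (GroupLike k H))) = T.card * Module.finrank k E := by
  have : Module.Finite k E := Module.Finite.iff_fg.2 hfg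
  rw [← comb_range, LinearMap.finrank_range_of_inj (comb_inj k T hE),
    Module.finrank_pi_fintype]
  simp

theorem finrank_kS (T : Finset (GroupLike k H)) :
    Module.finrank k ↥(kS k (T : Set (GroupLike k H))) = T.card := by
  have h := finrank_mul k T (E := (1 : Submodule k H)) (N := 0) (by
    rw [Submodule.one_eq_span]
    exact Submodule.fg_span_singleton _) (by
    rw [Submodule.one_eq_span, U])
  rw [one_mul] at h
  rw [h]
  have : Nontrivial H := ⟨1, 0, fun h => by
    have := congrArg (Coalgebra.counit (R := k)) h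
    rw [Bialgebra.counit_one, map_zero] at this
    exact one_ne_zero this⟩
  rw [Submodule.one_eq_span, finrank_span_singleton one_ne_zero, mul_one]

open scoped Pointwise in
theorem kS_pow [DecidableEq (GroupLike k H)] (S : Finset (GroupLike k H)) (n : ℕ) :
    kS k (S : Set (GroupLike k H)) ^ n = kS k ((S ^ n : Finset (GroupLike k H)) :
      Set (GroupLike k H)) := by
  unfold kS
  rw [Submodule.span_pow, Finset.coe_pow]
  congr 1
  exact (Set.image_pow (GroupLike.valMonoidHom k H) (S : Set (GroupLike k H)) n).symm

/-- exact product formula -/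
theorem finrank_mul_pow (S : Finset (GroupLike k H)) {E : Submodule k H} (hfg : E.FG) {N : ℕ}
    (hE : E ≤ U k H N) (n : ℕ) :
    Module.finrank k ↥(E * kS k (S : Set (GroupLike k H)) ^ n) =
      Module.finrank k ↥(kS k (S : Set (GroupLike k H)) ^ n) * Module.finrank k E := by
  classical
  rw [kS_pow, finrank_mul k _ hfg hE, finrank_kS]

end hopf

end Pool.Agent.GKC
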