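import Pool.Agent.Lib_helper67.GKC.FW

/-!
MP_49c8ed_al. Conjugation by group-like elements, and infinite orbits.
-/

set_option autoImplicit false

universe u v

namespace Pool.Agent.GKC

open TensorProduct Pool.Agent.GK

section
variable (k : Type u) [Field k] {H : Type v} [Ring H] [HopfAlgebra k H]

/-- conjugation by a group-like element -/
noncomputable def cj (g : GroupLike k H) : H →ₗ[k] H :=
  LinearMap.mulLeft k g.val ∘ₗ LinearMap.mulRight k (g⁻¹).val

theorem cj_apply (g : GroupLike k H) (x : H) : cj k g x = g.val * (x * (g⁻¹).val) := rfl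

theorem cj_mul (g : GroupLike k H) (x y : H) : cj k g (x * y) = cj k g x * cj k g y := by
  rw [cj_apply, cj_apply, cj_apply]
  calc g.val * (x * y * (g⁻¹).val) = g.val * (x * (1 * (y * (g⁻¹).val))) := by
        simp only [mul_assoc, one_mul]
    _ = g.val * (x * ((g⁻¹).val * g.val * (y * (g⁻¹).val))) := by rw [grp_inv_mul]
    _ = g.val * (x * (g⁻¹).val) * (g.val * (y * (g⁻¹).val)) := by simp only [mul_assoc]

theorem cj_one (g : GroupLike k H) : cj k g 1 = 1 := by
  rw [cj_apply, one_mul, grp_mul_inv]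

theorem cj_self (x : H) : cj k (1 : GroupLike k H) x = x := by
  rw [cj_apply, inv_one, GroupLike.val_one, one_mul, mul_one]

theorem cj_U {n : ℕ} {x : H} (hx : x ∈ U k H n) (g : GroupLike k H) : cj k g x ∈ U k H n := by
  induction n generalizing x with
  | zero =>
    obtain ⟨a, rfl⟩ := (mem_U_zero k).1 hx
    rw [map_smul, cj_one]
    exact Submodule.smul_mem _ _ (one_mem_U k 0)
  | succ n ih =>
    rw [mem_U_succ]
    intro f hf
    rw [cj_apply, L_grp_mul, L_mul_grp]
    refine ih ((mem_U_succ k).1 hx _ ?_)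
    simp only [LinearMap.comp_apply, LinearMap.mulRight_apply, LinearMap.mulLeft_apply, one_mul,
      grp_mul_inv]
    exact hf

theorem cj_comul (g : GroupLike k H) (x : H) : Coalgebra.comul (R := k) (cj k g x) =
    TensorProduct.map (cj k g) (cj k g) (Coalgebra.comul (R := k) x) := by
  have h : ∀ t : H ⊗[k] H, (g.val ⊗ₜ[k] g.val) * (t * ((g⁻¹).val ⊗ₜ[k] (g⁻¹).val)) =
      TensorProduct.map (cj k g) (cj k g) t := by
    intro t
    induction t with
    | zero => simp
    | tmul a b => simp [cj_apply]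
    | add s t hs ht => simp only [map_add, add_mul, mul_add, hs, ht]
  rw [cj_apply, Bialgebra.comul_mul, Bialgebra.comul_mul, g.2.comul_eq_tmul_self,
    (g⁻¹).2.comul_eq_tmul_self, h]

/-- `E` is stable under the conjugations by the elements of `S` -/
def Stb (S : Set (GroupLike k H)) (E : Submodule k H) : Prop :=
  ∀ s ∈ S, E.map (cj k s) ≤ E

theorem Stb.one (S : Set (GroupLike k H)) : Stb k S (1 : Submodule k H) := by
  intro s _
  rw [Submodule.one_eq_span, Submodule.map_span_le]
  rintro _ rfl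
  rw [cj_one]
  exact Submodule.mem_span_singleton_self _

variable {k}

theorem Stb.mul {S : Set (GroupLike k H)} {A B : Submodule k H} (hA : Stb k S A)
    (hB : Stb k S B) : Stb k S (A * B) := by
  intro s hs
  rw [Submodule.map_le_iff_le_comap, Submodule.mul_le]
  intro a ha b hb
  rw [Submodule.mem_comap, cj_mul]
  exact Submodule.mul_mem_mul (hA s hs (Submodule.mem_map_of_mem ha))
    (hB s hs (Submodule.mem_map_of_mem hb))

theorem Stb.pow {S : Set (GroupLike k H)} {A : Submodule k H} (hA : Stb k S A) (n : ℕ) :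
    Stb k S (A ^ n) := by
  induction n with
  | zero =>
    rw [pow_zero]
    exact Stb.one k S
  | succ n ih =>
    rw [pow_succ]
    exact ih.mul hA

variable (k)

/-- `x` is primitive modulo `E` -/
def PM (E : Submodule k H) (x : H) : Prop :=
  Coalgebra.comul (R := k) x - x ⊗ₜ[k] (1 : H) - (1 : H) ⊗ₜ[k] x ∈ tsp k E E

/-- the elements which are primitive modulo `E` -/
def PMs (E : Submodule k H) : Submodule k H where
  carrier := {x | PM k E x}
  add_mem' := by
    intro x y (hx : _ ∈ tsp k E E) (hy : _ ∈ tsp k E E)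
    have h := Submodule.add_mem _ hx hy
    have e : Coalgebra.comul (R := k) (x + y) - (x + y) ⊗ₜ[k] (1 : H) - (1 : H) ⊗ₜ[k] (x + y) =
      (Coalgebra.comul (R := k) x - x ⊗ₜ[k] (1 : H) - (1 : H) ⊗ₜ[k] x) +
      (Coalgebra.comul (R := k) y - y ⊗ₜ[k] (1 : H) - (1 : H) ⊗ₜ[k] y) := by
      rw [map_add, TensorProduct.add_tmul, TensorProduct.tmul_add]
      abel
    change Coalgebra.comul (R := k) (x + y) - (x + y) ⊗ₜ[k] (1 : H) -
      (1 : H) ⊗ₜ[k] (x + y) ∈ tsp k E E
    rw [e]
    exact h
  zero_mem' := by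
    change Coalgebra.comul (R := k) (0 : H) - (0 : H) ⊗ₜ[k] (1 : H) -
      (1 : H) ⊗ₜ[k] (0 : H) ∈ tsp k E E
    simp
  smul_mem' := by
    intro a x (hx : _ ∈ tsp k E E)
    have h := Submodule.smul_mem _ a hx
    change Coalgebra.comul (R := k) (a • x) - (a • x) ⊗ₜ[k] (1 : H) -
      (1 : H) ⊗ₜ[k] (a • x) ∈ tsp k E E
    rw [smul_sub, smul_sub] at h
    have e : (a • x) ⊗ₜ[k] (1 : H) = a • x ⊗ₜ[k] (1 : H) := rfl
    rw [map_smul, e, TensorProduct.tmul_smul]
    exact h

theorem PM_cj {S : Set (GroupLike k H)} {E : Submodule k H} (hE : Stb k S E) {x : H}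
    (hx : PM k E x) {s : GroupLike k H} (hs : s ∈ S) : PM k E (cj k s x) := by
  unfold PM at *
  rw [cj_comul]
  have h1 : tsp k E E ≤ (tsp k E E).comap (TensorProduct.map (cj k s) (cj k s)) := by
    rw [tsp, Submodule.map₂_le]
    intro a ha b hb
    rw [Submodule.mem_comap, mk_apply, TensorProduct.map_tmul]
    exact Submodule.apply_mem_map₂ _ (hE s hs (Submodule.mem_map_of_mem ha))
      (hE s hs (Submodule.mem_map_of_mem hb))
  have h2 := h1 hx
  rw [Submodule.mem_comap, map_sub, map_sub, TensorProduct.map_tmul, TensorProduct.map_tmul,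
    cj_one] at h2
  exact h2

/-- the conjugates of `x` by words of length `i` in `S` -/
noncomputable def orb (S : Finset (GroupLike k H)) (x : H) : ℕ → Submodule k H
  | 0 => Submodule.span k {x}
  | i + 1 => ⨆ s ∈ S, (orb S x i).map (cj k s)

variable (S : Finset (GroupLike k H)) (x : H)

theorem orb_fg (i : ℕ) : (orb k S x i).FG := by
  induction i with
  | zero => exact Submodule.fg_span_singleton _
  | succ i ih => exact Submodule.fg_biSup S _ (fun s _ => ih.map _)

theorem orb_map (i : ℕ) {s : GroupLike k H} (hs : s ∈ S) :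
    (orb k S x i).map (cj k s) ≤ orb k S x (i + 1) :=
  le_iSup₂_of_le (f := fun s (_ : s ∈ S) => (orb k S x i).map (cj k s)) s hs le_rfl

theorem orb_le_succ (h1 : (1 : GroupLike k H) ∈ S) (i : ℕ) : orb k S x i ≤ orb k S x (i + 1) := by
  intro y hy
  have h2 := orb_map k S x i h1 (Submodule.mem_map_of_mem hy)
  rwa [cj_self] at h2

theorem orb_mono (h1 : (1 : GroupLike k H) ∈ S) : Monotone (orb k S x) :=
  monotone_nat_of_le_succ (orb_le_succ k S x h1)

theorem orb_PM {E : Submodule k H} (hE : Stb k (S : Set (GroupLike k H)) E) (hx : PM k E x)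
    (i : ℕ) : orb k S x i ≤ PMs k E := by
  induction i with
  | zero =>
    rw [orb, Submodule.span_singleton_le_iff_mem]
    exact hx
  | succ i ih =>
    refine iSup₂_le fun s hs => ?_
    rw [Submodule.map_le_iff_le_comap]
    intro y hy
    exact PM_cj k hE (ih hy) hs

theorem orb_le_pow {V : Submodule k H}
    (hS : ∀ s ∈ S, s.val ∈ V ∧ (s⁻¹).val ∈ V) (hx : x ∈ V) (i : ℕ) :
    orb k S x i ≤ V ^ (2 * i + 1) := by
  induction i with
  | zero =>
    rw [orb, mul_zero, zero_add, pow_one, Submodule.span_singleton_le_iff_mem]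
    exact hx
  | succ i ih =>
    refine iSup₂_le fun s hs => ?_
    rw [Submodule.map_le_iff_le_comap]
    intro y hy
    rw [Submodule.mem_comap, cj_apply]
    have e : 2 * (i + 1) + 1 = 1 + ((2 * i + 1) + 1) := by ring
    rw [e, pow_add, pow_add, pow_one]
    exact Submodule.mul_mem_mul (hS s hs).1 (Submodule.mul_mem_mul (ih hy) (hS s hs).2)

/-- the span of `1` and the first elements of a flag has low weight -/
theorem low_flag {F : ℕ → Submodule k H} (hF : Monotone F) (h1 : (1 : H) ∈ F 0) {m : ℕ}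
    {c : Fin m → H} (hc : ∀ i : Fin m, c i ∈ F (3 ^ i.val)) (n : ℕ) :
    ∃ d, Submodule.span k (insert (1 : H) (c '' {i | i.val < n})) ≤ F d ∧ d + d + 1 ≤ 3 ^ n := by
  rcases Nat.eq_zero_or_pos n with rfl | h
  · refine ⟨0, ?_, by norm_num⟩
    rw [Submodule.span_le]
    rintro y (rfl | ⟨i, hi, rfl⟩)
    · exact h1
    · exact absurd hi (Nat.not_lt_zero _)
  · refine ⟨3 ^ (n - 1), ?_, ?_⟩
    · rw [Submodule.span_le]
      rintro y (rfl | ⟨i, hi, rfl⟩)
      · exact hF (Nat.zero_le _) h1
      · have hi' : i.val < n := hi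
        exact hF (Nat.pow_le_pow_right (by norm_num) (by omega)) (hc i)
    · obtain ⟨t, rfl⟩ : ∃ t, n = t + 1 := ⟨n - 1, by omega⟩
      rw [Nat.add_sub_cancel, pow_succ]
      have : 1 ≤ 3 ^ t := Nat.one_le_pow _ _ (by norm_num)
      omega

/-- many independent elements which are primitive modulo a flagged subspace -/
theorem indep_growth {m N : ℕ} (c : Fin m → H) (hc : FLAG_cond k c) (X : Fin N → H)
    (hX : ∀ i, PM k (Submodule.span k (insert (1 : H) (Set.range c))) (X i))
    (hind : ∀ i, X i ∉ (Submodule.span k (insert (1 : H) (Set.range c))) ^ (3 ^ m) ⊔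
      Submodule.span k (X '' {j | j < i})) {V : Submodule k H} (hV : (1 : Submodule k H) ≤ V)
    (hfg : V.FG) {a : ℕ} (ha : 1 ≤ a) (hcV : ∀ i, c i ∈ V) (hXV : ∀ i, X i ∈ V ^ a) :
    2 ^ N ≤ Module.finrank k ↥(V ^ (a * (N * 3 ^ m))) := by
  set c' : Fin (m + N) → H := Fin.append c X with hc'
  set w : Fin (m + N) → ℕ := Fin.append (fun i : Fin m => 3 ^ i.val) (fun _ => 3 ^ m) with hw
  have hw1 : ∀ i, 1 ≤ w i := by
    intro i
    refine Fin.addCases (fun i => ?_) (fun i => ?_) i
    · rw [hw, Fin.append_left]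
      exact Nat.one_le_pow _ _ (by norm_num)
    · rw [hw, Fin.append_right]
      exact Nat.one_le_pow _ _ (by norm_num)
  set F := fwF k c' w with hF
  have hFm : Monotone F := fw_mono k c' w
  have hF1 : (1 : H) ∈ F 0 := fw_one_mem k c' w 0
  have hFc : ∀ i : Fin m, c i ∈ F (3 ^ i.val) := by
    intro i
    have h := fw_c_mem k c' w (Fin.castAdd N i)
    rw [hc', hw, Fin.append_left, Fin.append_left] at h
    exact h
  have hFX : ∀ i : Fin N, X i ∈ F (3 ^ m) := by
    intro i
    have h := fw_c_mem k c' w (Fin.natAdd m i)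
    rw [hc', hw, Fin.append_right, Fin.append_right] at h
    exact h
  -- approximate primitivity
  have low : ∀ n : ℕ, tsp k (Submodule.span k (insert (1 : H) (c '' {i | i.val < n})))
      (Submodule.span k (insert (1 : H) (c '' {i | i.val < n}))) ≤ Tlt k F (3 ^ n) := by
    intro n
    obtain ⟨d, hd1, hd2⟩ := low_flag k hFm hF1 hFc n
    obtain ⟨e, he⟩ : ∃ e, 3 ^ n = e + 1 := ⟨3 ^ n - 1, by
      have : 1 ≤ 3 ^ n := Nat.one_le_pow _ _ (by norm_num)
      omega⟩
    rw [he]
    exact filt_tsp_le k hd1 hd1 (by omega)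
  have hrange : c '' {i | i.val < m} = Set.range c := by
    rw [← Set.image_univ]
    congr 1
    ext i
    simp
  have hprimX : ∀ i : Fin N, Coalgebra.comul (R := k) (X i) - X i ⊗ₜ[k] (1 : H) -
      (1 : H) ⊗ₜ[k] X i ∈ Tlt k F (3 ^ m) := by
    intro i
    have h := hX i
    unfold PM at h
    rw [← hrange] at h
    exact low m h
  have hprimc : ∀ i : Fin m, Coalgebra.comul (R := k) (c i) - c i ⊗ₜ[k] (1 : H) -
      (1 : H) ⊗ₜ[k] c i ∈ Tlt k F (3 ^ i.val) := fun i => low i.val (hc i)
  have hFilt : IsFilt k F c' w := by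
    refine fw_pr k c' hw1 fun j => ?_
    refine Fin.addCases (fun i => ?_) (fun i => ?_) j
    · rw [hc', hw, Fin.append_left, Fin.append_left]
      exact hprimc i
    · rw [hc', hw, Fin.append_right, Fin.append_right]
      exact hprimX i
  -- the lower part of the filtration
  have hlow : Flt k F (3 ^ m) ≤ (Submodule.span k (insert (1 : H) (Set.range c))) ^ (3 ^ m) := by
    obtain ⟨e, he⟩ : ∃ e, 3 ^ m = e + 1 := ⟨3 ^ m - 1, by
      have : 1 ≤ 3 ^ m := Nat.one_le_pow _ _ (by norm_num)
      omega⟩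
    have hD1 : (1 : Submodule k H) ≤ Submodule.span k (insert (1 : H) (Set.range c)) := by
      rw [Submodule.one_le]
      exact Submodule.subset_span (Set.mem_insert _ _)
    rw [he]
    change F e ≤ _
    refine Submodule.span_le.mpr ?_
    rintro z ⟨l, hl, rfl⟩
    have h1 : ∀ l : List (Fin (m + N)), (l.map w).sum ≤ e → (l.map c').prod ∈
        (Submodule.span k (insert (1 : H) (Set.range c))) ^ l.length := by
      intro l
      induction l with
      | nil =>
        intro _
        rw [List.map_nil, List.prod_nil, List.length_nil, pow_zero]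
        exact Submodule.one_le.mp le_rfl
      | cons j l ih =>
        intro hl
        rw [List.map_cons, List.sum_cons] at hl
        rw [List.map_cons, List.prod_cons, List.length_cons, pow_succ']
        refine Submodule.mul_mem_mul ?_ (ih (by omega))
        revert hl
        refine Fin.addCases (fun i => ?_) (fun i => ?_) j
        · intro _
          rw [hc', Fin.append_left]
          exact Submodule.subset_span (Or.inr ⟨i, rfl⟩)
        · intro hl
          rw [hw, Fin.append_right] at hl
          omega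
    exact pow_le_pow_right₀ hD1 (((fw_len_le hw1 l).trans hl).trans (Nat.le_succ e)) (h1 l hl)
  have hI : IsIndep k F X (fun _ => 3 ^ m) := by
    refine ⟨fun _ => Nat.one_le_pow _ _ (by norm_num), fun i => ⟨hFX i, hprimX i⟩, fun i hi => ?_⟩
    apply hind i
    refine sup_le_sup hlow ?_ hi
    refine Submodule.span_mono (Set.image_mono ?_)
    exact fun j hj => hj.1
  have h1 := ind_pr k hFilt hI
  rw [Finset.sum_const, Finset.card_univ, Fintype.card_fin, smul_eq_mul] at h1
  refine h1.trans ?_
  have : Module.Finite k ↥(V ^ (a * (N * 3 ^ m))) := Module.Finite.iff_fg.2 (hfg.pow _)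
  refine Submodule.finrank_mono (fw_le_pow k c' hw1 hV (a := a) ?_ _)
  intro j
  refine Fin.addCases (fun i => ?_) (fun i => ?_) j
  · rw [hc', Fin.append_left]
    have h2 : V ^ 1 ≤ V ^ a := pow_le_pow_right₀ hV ha
    rw [pow_one] at h2
    exact h2 (hcV i)
  · rw [hc', Fin.append_right]
    exact hXV i

end

end Pool.Agent.GKC
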