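import Pool.Agent.Lib_helper67.GKC.D

/-!
MP_49c8ed_al. Infinite orbits give infinite GK dimension; stable flagged subspaces.
-/

set_option autoImplicit false

universe u v

namespace Pool.Agent.GKC

open TensorProduct Pool.Agent.GK

section
variable (k : Type u) [Field k] {H : Type v} [Ring H] [Bialgebra k H]

theorem le_GKdim {V : Submodule k H} (h1 : (1 : Submodule k H) ≤ V) (hfg : V.FG) :
    asm_L k V ≤ GKdim k H :=
  le_iSup₂_of_le (f := fun (V : Submodule k H) (_ : 1 ≤ V ∧ V.FG) => asm_L k V) V ⟨h1, hfg⟩ le_rfl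

theorem Flagged.one : Flagged k (1 : Submodule k H) := by
  refine ⟨0, fun i => i.elim0, fun j => j.elim0, ?_⟩
  have e : Set.range (fun i : Fin 0 => (i.elim0 : H)) = ∅ := Set.range_eq_empty _
  rw [e, insert_empty_eq, Submodule.one_eq_span]

end

section
variable (k : Type u) [Field k] {H : Type v} [Ring H] [HopfAlgebra k H]

theorem PM_mono {E E' : Submodule k H} (h : E ≤ E') {x : H} (hx : PM k E x) : PM k E' x :=
  FLAG_tsp_mono k h hx

/-- one more element -/
theorem step_stable {E : Submodule k H} (hE : Flagged k E) (S : Finset (GroupLike k H))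
    (h1 : (1 : GroupLike k H) ∈ S) (hS : Stb k (S : Set (GroupLike k H)) E) {x : H}
    (hx : PM k E x) : GKdim k H = ⊤ ∨ ∃ E' : Submodule k H, Flagged k E' ∧
      Stb k (S : Set (GroupLike k H)) E' ∧ E ≤ E' ∧ x ∈ E' := by
  classical
  obtain ⟨m, c, hc, hcE⟩ := id hE
  set P : Submodule k H := E ^ (3 ^ m) with hP
  have hE1 : (1 : Submodule k H) ≤ E := Submodule.one_le.2 hE.one_mem
  have hEP : E ≤ P := by
    have h : E ^ 1 ≤ E ^ (3 ^ m) := pow_le_pow_right₀ hE1 (Nat.one_le_pow _ _ (by norm_num))
    rwa [pow_one] at h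
  have hPf : Flagged k P := hE.pow _
  have hPs : Stb k (S : Set (GroupLike k H)) P := hS.pow _
  by_cases hA : ∃ i, orb k S x (i + 1) ≤ P ⊔ orb k S x i
  · right
    obtain ⟨i, hi⟩ := hA
    obtain ⟨t, ht⟩ := orb_fg k S x i
    refine ⟨P ⊔ orb k S x i, ?_, ?_, hEP.trans le_sup_left, ?_⟩
    · rw [← ht]
      refine Flagged.sup_span k hPf t fun y hy => ?_
      refine PM_mono k hEP (orb_PM k S x hS hx i ?_)
      rw [← ht]
      exact Submodule.subset_span hy
    · intro s hs
      rw [Submodule.map_sup]
      exact sup_le ((hPs s hs).trans le_sup_left) ((orb_map k S x i hs).trans hi)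
    · exact Submodule.mem_sup_right (orb_mono k S x h1 (Nat.zero_le i)
        (Submodule.mem_span_singleton_self x))
  by_cases hxP : x ∈ P
  · exact Or.inr ⟨P, hPf, hPs, hEP, hxP⟩
  left
  have hY : ∀ i, ∃ y ∈ orb k S x (i + 1), y ∉ P ⊔ orb k S x i := by
    intro i
    by_contra hcon
    push Not at hcon
    exact hA ⟨i, hcon⟩
  choose Y hY1 hY2 using hY
  obtain ⟨X, hX0, hXs⟩ : ∃ X : ℕ → H, X 0 = x ∧ ∀ i, X (i + 1) = Y i :=
    ⟨fun i => Nat.casesOn i x Y, rfl, fun _ => rfl⟩
  have hXo : ∀ i, X i ∈ orb k S x i := by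
    intro i
    cases i with
    | zero =>
      rw [hX0]
      exact Submodule.mem_span_singleton_self x
    | succ i =>
      rw [hXs]
      exact hY1 i
  have hXn : ∀ i, X i ∉ P ⊔ Submodule.span k (X '' {j | j < i}) := by
    intro i
    cases i with
    | zero =>
      have e : X '' {j | j < 0} = ∅ := by
        rw [Set.image_eq_empty]
        ext j
        simp
      rw [e, Submodule.span_empty, sup_bot_eq, hX0]
      exact hxP
    | succ i =>
      rw [hXs]
      intro h
      apply hY2 i
      refine sup_le_sup_left ?_ P h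
      rw [Submodule.span_le]
      rintro _ ⟨j, hj, rfl⟩
      have hj' : j < i + 1 := hj
      exact orb_mono k S x h1 (by omega) (hXo j)
  -- the subspace which generates everything
  set V : Submodule k H := E ⊔ Submodule.span k {x} ⊔
    (kS k (S : Set (GroupLike k H)) ⊔ kS k ((S.image fun s => s⁻¹ : Finset (GroupLike k H)) :
      Set (GroupLike k H))) with hV
  have hEV : E ≤ V := le_sup_left.trans le_sup_left
  have hV1 : (1 : Submodule k H) ≤ V := hE1.trans hEV
  have hxV : x ∈ V := Submodule.mem_sup_left (Submodule.mem_sup_right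
    (Submodule.mem_span_singleton_self x))
  have hSV : ∀ s ∈ S, s.val ∈ V ∧ (s⁻¹).val ∈ V := by
    intro s hs
    refine ⟨Submodule.mem_sup_right (Submodule.mem_sup_left (Submodule.subset_span ⟨s, hs, rfl⟩)),
      Submodule.mem_sup_right (Submodule.mem_sup_right (Submodule.subset_span
        ⟨s⁻¹, ?_, rfl⟩))⟩
    exact Finset.mem_coe.2 (Finset.mem_image_of_mem _ hs)
  have hkfg : ∀ T : Finset (GroupLike k H), (kS k (T : Set (GroupLike k H))).FG := fun T =>
    Submodule.fg_span (T.finite_toSet.image _)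
  have hVfg : V.FG := (hE.fg.sup (Submodule.fg_span_singleton x)).sup ((hkfg S).sup (hkfg _))
  refine top_le_iff.1 (le_trans ?_ (le_GKdim k hV1 hVfg))
  rw [asm_L_top k (V := V) (W := 3 * 3 ^ m) (by
    have : 1 ≤ 3 ^ m := Nat.one_le_pow _ _ (by norm_num)
    omega)]
  intro N hN
  have h2 := indep_growth k c hc (N := N) (fun i : Fin N => X i.val) (fun i => by
      rw [hcE]
      exact orb_PM k S x hS hx i.val (hXo i.val))
    (fun i hi => by
      rw [hcE] at hi
      apply hXn i.val
      refine sup_le_sup_left ?_ P hi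
      refine Submodule.span_mono ?_
      rintro _ ⟨j, hj, rfl⟩
      exact ⟨j.val, hj, rfl⟩)
    hV1 hVfg (a := 2 * N + 1) (by omega) (fun i => by
      apply hEV
      rw [← hcE]
      exact Submodule.subset_span (Set.mem_insert_of_mem _ ⟨i, rfl⟩))
    (fun i => by
      have h3 := orb_le_pow k S x hSV hxV i.val (hXo i.val)
      refine pow_le_pow_right₀ hV1 ?_ h3
      have := i.isLt
      omega)
  refine h2.trans ?_
  have hfin : Module.Finite k ↥(V ^ (3 * 3 ^ m * N ^ 2)) := Module.Finite.iff_fg.2 (hVfg.pow _)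
  refine Submodule.finrank_mono (pow_le_pow_right₀ hV1 ?_)
  calc (2 * N + 1) * (N * 3 ^ m) ≤ (3 * N) * (N * 3 ^ m) := Nat.mul_le_mul_right _ (by omega)
    _ = 3 * 3 ^ m * N ^ 2 := by ring

/-- every flagged subspace lies in a stable one, or the dimension is infinite -/
theorem stable_flag (S : Finset (GroupLike k H)) (h1 : (1 : GroupLike k H) ∈ S)
    {D : Submodule k H} (hD : Flagged k D) : GKdim k H = ⊤ ∨ ∃ E : Submodule k H, Flagged k E ∧
      Stb k (S : Set (GroupLike k H)) E ∧ D ≤ E := by
  by_cases htop : GKdim k H = ⊤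
  · exact Or.inl htop
  right
  obtain ⟨m, c, hc, rfl⟩ := hD
  have key : ∀ n : ℕ, ∃ E : Submodule k H, Flagged k E ∧ Stb k (S : Set (GroupLike k H)) E ∧
      Submodule.span k (insert (1 : H) (c '' {i | i.val < n})) ≤ E := by
    intro n
    induction n with
    | zero =>
      refine ⟨1, Flagged.one k, Stb.one k _, ?_⟩
      rw [Submodule.span_le]
      rintro y (rfl | ⟨i, hi, rfl⟩)
      · exact Submodule.one_le.1 le_rfl
      · exact absurd hi (Nat.not_lt_zero _)
    | succ n ih =>
      obtain ⟨E, hE, hES, hEn⟩ := ih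
      by_cases hn : n < m
      · have hx : PM k E (c ⟨n, hn⟩) := by
          refine FLAG_tsp_mono k ?_ (hc ⟨n, hn⟩)
          refine le_trans (Submodule.span_mono (Set.insert_subset_insert (Set.image_mono ?_))) hEn
          intro i hi
          exact hi
        rcases step_stable k hE S h1 hES hx with h | ⟨E', h2, h3, h4, h5⟩
        · exact absurd h htop
        · refine ⟨E', h2, h3, ?_⟩
          rw [Submodule.span_le]
          rintro y (rfl | ⟨i, hi, rfl⟩)
          · exact h2.one_mem
          · have hi' : i.val < n + 1 := hi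
            rcases Nat.lt_succ_iff_lt_or_eq.1 hi' with h6 | h6
            · exact h4 (hEn (Submodule.subset_span (Set.mem_insert_of_mem _ ⟨i, h6, rfl⟩)))
            · have e : i = ⟨n, hn⟩ := Fin.ext h6
              rw [e]
              exact h5
      · refine ⟨E, hE, hES, ?_⟩
        refine le_trans (Submodule.span_mono (Set.insert_subset_insert (Set.image_mono ?_))) hEn
        intro i _
        have := i.isLt
        change i.val < n
        omega
  obtain ⟨E, hE, hES, hEm⟩ := key m
  refine ⟨E, hE, hES, ?_⟩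
  refine le_trans (Submodule.span_mono (Set.insert_subset_insert ?_)) hEm
  rintro _ ⟨i, rfl⟩
  exact ⟨i, i.isLt, rfl⟩

end

end Pool.Agent.GKC
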