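import Pool.Agent.Lib_helper67.GKC.E

/-!
MP_49c8ed_al. The growth of the products of flagged subspaces and group-likes, and the dimension
of the group algebra.
-/

set_option autoImplicit false

universe u v

namespace Pool.Agent.GKC

open TensorProduct Pool.Agent.GK Filter Topology

/-! ### real sequences -/

/-- the limit superior of a sum, one summand converges -/
theorem limsup_add_tendsto {a b : ℕ → ENNReal} {r : ENNReal} (hr : r ≠ ⊤)
    (hb : Tendsto b atTop (𝓝 r)) :
    limsup (fun n => a n + b n) atTop = limsup a atTop + r := by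
  have hc : ∀ (f : ℕ → ENNReal) (c : ENNReal),
      limsup (fun n => f n + c) atTop = limsup f atTop + c := fun f c =>
    limsup_add_const atTop f c (by isBoundedDefault) (by isBoundedDefault)
  apply le_antisymm
  · refine ENNReal.le_of_forall_pos_le_add fun ε hε _ => ?_
    have hε' : (0 : ENNReal) < ε := by exact_mod_cast hε
    have h1 : ∀ᶠ n in atTop, b n ≤ r + ε := by
      have h2 : r < r + ε := ENNReal.lt_add_right hr hε'.ne'
      filter_upwards [hb.eventually_lt_const h2] with n hn using hn.le
    calc limsup (fun n => a n + b n) atTop ≤ limsup (fun n => a n + (r + ε)) atTop := by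
          refine limsup_le_limsup ?_
          filter_upwards [h1] with n hn using add_le_add le_rfl hn
      _ = limsup a atTop + r + ε := by rw [hc, add_assoc]
  · refine ENNReal.le_of_forall_pos_le_add fun ε hε _ => ?_
    have hε' : (0 : ENNReal) < ε := by exact_mod_cast hε
    have h1 : ∀ᶠ n in atTop, r ≤ b n + ε := by
      by_cases h0 : r ≤ ε
      · exact Eventually.of_forall fun n => h0.trans le_add_self
      · have h2 : r - ε < r := ENNReal.sub_lt_self hr (by
          rintro rfl
          exact h0 zero_le) hε'.ne'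
        filter_upwards [hb.eventually_const_lt h2] with n hn
        exact tsub_le_iff_right.1 hn.le
    calc limsup a atTop + r = limsup (fun n => a n + r) atTop := (hc a r).symm
      _ ≤ limsup (fun n => a n + b n + ε) atTop := by
          refine limsup_le_limsup ?_
          filter_upwards [h1] with n hn
          calc a n + r ≤ a n + (b n + ε) := add_le_add le_rfl hn
            _ = a n + b n + ε := (add_assoc _ _ _).symm
      _ = limsup (fun n => a n + b n) atTop + ε := hc _ _

/-- the growth rate of a sequence of natural numbers -/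
noncomputable def Gr (f : ℕ → ℕ) : ENNReal :=
  limsup (fun n : ℕ => ENNReal.ofReal (Real.log ((f n : ℕ) : ℝ) / Real.log (n : ℝ))) atTop

theorem Gr_tendsto {d : ℕ → ℕ} {r : ℕ} {c C : ℝ} (hc : 0 < c)
    (hd : ∀ n : ℕ, 1 ≤ n → c * (n : ℝ) ^ r ≤ (d n : ℝ) ∧ (d n : ℝ) ≤ C * (n : ℝ) ^ r) :
    Tendsto (fun n : ℕ => Real.log ((d n : ℕ) : ℝ) / Real.log (n : ℝ)) atTop (𝓝 (r : ℝ)) := by
  have hC : 0 < C := by
    have h1 := (hd 1 le_rfl).1.trans (hd 1 le_rfl).2
    simp only [Nat.cast_one, one_pow, mul_one] at h1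
    linarith
  have hlog : Tendsto (fun n : ℕ => Real.log (n : ℝ)) atTop atTop :=
    Real.tendsto_log_atTop.comp tendsto_natCast_atTop_atTop
  have hconst : ∀ a : ℝ, Tendsto (fun n : ℕ => a / Real.log (n : ℝ) + r) atTop (𝓝 (r : ℝ)) := by
    intro a
    have h1 : Tendsto (fun n : ℕ => a / Real.log (n : ℝ)) atTop (𝓝 0) :=
      tendsto_const_nhds.div_atTop hlog
    simpa using h1.add_const (r : ℝ)
  refine tendsto_of_tendsto_of_tendsto_of_le_of_le' (hconst (Real.log c))
    (hconst (Real.log C)) ?_ ?_
  · filter_upwards [eventually_ge_atTop 2] with n hn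
    have hn0 : (0 : ℝ) < (n : ℝ) := by
      have : 0 < n := by omega
      exact_mod_cast this
    have hln : 0 < Real.log (n : ℝ) := Real.log_pos (by exact_mod_cast hn)
    rw [div_add' _ _ _ hln.ne', div_le_div_iff_of_pos_right hln]
    have h1 := (hd n (by omega)).1
    have h2 := Real.log_le_log (by positivity) h1
    rw [Real.log_mul hc.ne' (by positivity), Real.log_pow] at h2
    exact h2
  · filter_upwards [eventually_ge_atTop 2] with n hn
    have hn0 : (0 : ℝ) < (n : ℝ) := by
      have : 0 < n := by omega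
      exact_mod_cast this
    have hln : 0 < Real.log (n : ℝ) := Real.log_pos (by exact_mod_cast hn)
    rw [div_add' _ _ _ hln.ne', div_le_div_iff_of_pos_right hln]
    have h3 : (0 : ℝ) < (d n : ℝ) := lt_of_lt_of_le (by positivity) (hd n (by omega)).1
    have h2 := Real.log_le_log h3 (hd n (by omega)).2
    rw [Real.log_mul hC.ne' (by positivity), Real.log_pow] at h2
    exact h2

theorem Gr_mul {d κ : ℕ → ℕ} {r : ℕ} {c C : ℝ} (hκ : ∀ n, 1 ≤ κ n) (hc : 0 < c)
    (hd : ∀ n : ℕ, 1 ≤ n → c * (n : ℝ) ^ r ≤ (d n : ℝ) ∧ (d n : ℝ) ≤ C * (n : ℝ) ^ r) :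
    Gr (fun n => κ n * d n) = Gr κ + r := by
  have h1 := ENNReal.tendsto_ofReal (Gr_tendsto hc hd)
  rw [ENNReal.ofReal_natCast] at h1
  have h2 := limsup_add_tendsto (a := fun n : ℕ => ENNReal.ofReal
    (Real.log ((κ n : ℕ) : ℝ) / Real.log (n : ℝ))) (ENNReal.natCast_ne_top r) h1
  rw [Gr, Gr, ← h2]
  refine limsup_congr ?_
  filter_upwards [eventually_ge_atTop 2] with n hn
  have hn0 : (0 : ℝ) < (n : ℝ) := by
    have : 0 < n := by omega
    exact_mod_cast this
  have hln : 0 < Real.log (n : ℝ) := Real.log_pos (by exact_mod_cast hn)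
  have hk : (1 : ℝ) ≤ (κ n : ℝ) := by exact_mod_cast hκ n
  have hd0 : (0 : ℝ) < (d n : ℝ) := lt_of_lt_of_le (by positivity) (hd n (by omega)).1
  have hd1 : (1 : ℝ) ≤ (d n : ℝ) := by
    have : 0 < d n := by exact_mod_cast hd0
    exact_mod_cast this
  rw [← ENNReal.ofReal_add (div_nonneg (Real.log_nonneg hk) hln.le)
    (div_nonneg (Real.log_nonneg hd1) hln.le), ← add_div, ← Real.log_mul (by positivity)
    (by positivity)]
  push_cast
  rfl

section
variable (k : Type u) [Field k] {H : Type v} [Ring H] [HopfAlgebra k H]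

theorem asm_L_eq_Gr (V : Submodule k H) :
    asm_L k V = Gr (fun n => Module.finrank k ↥(V ^ n)) := rfl

theorem kS_fg (S : Finset (GroupLike k H)) : (kS k (S : Set (GroupLike k H))).FG :=
  Submodule.fg_span (S.finite_toSet.image _)

theorem kS_mono {S T : Set (GroupLike k H)} (h : S ⊆ T) : kS k S ≤ kS k T :=
  Submodule.span_mono (Set.image_mono h)

theorem one_le_kS {S : Set (GroupLike k H)} (h : (1 : GroupLike k H) ∈ S) :
    (1 : Submodule k H) ≤ kS k S := by
  rw [Submodule.one_le]
  exact Submodule.subset_span ⟨1, h, rfl⟩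

/-- a symmetric finite set with `1` -/
def Sym (S : Finset (GroupLike k H)) : Prop :=
  (1 : GroupLike k H) ∈ S ∧ ∀ s ∈ S, s⁻¹ ∈ S

theorem exists_sym (S : Finset (GroupLike k H)) : ∃ T : Finset (GroupLike k H), Sym k T ∧
    (S : Set (GroupLike k H)) ⊆ T := by
  classical
  refine ⟨insert 1 (S ∪ S.image fun s => s⁻¹), ⟨Finset.mem_insert_self _ _, ?_⟩, ?_⟩
  · intro s hs
    rw [Finset.mem_insert, Finset.mem_union, Finset.mem_image] at hs ⊢
    rcases hs with rfl | hs | ⟨t, ht, rfl⟩
    · exact Or.inl inv_one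
    · exact Or.inr (Or.inr ⟨s, hs, rfl⟩)
    · rw [inv_inv]
      exact Or.inr (Or.inl ht)
  · intro s hs
    exact Finset.mem_coe.2 (Finset.mem_insert_of_mem (Finset.mem_union_left _ hs))

/-- a stable subspace commutes with the span of the group-likes -/
theorem commute_kS {S : Finset (GroupLike k H)} (hS : Sym k S) {D : Submodule k H}
    (hD : Stb k (S : Set (GroupLike k H)) D) :
    Commute D (kS k (S : Set (GroupLike k H))) := by
  apply le_antisymm
  · rw [Submodule.mul_le]
    intro d hd t ht
    have h1 : kS k (S : Set (GroupLike k H)) ≤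
        (kS k (S : Set (GroupLike k H)) * D).comap (LinearMap.mulLeft k d) := by
      rw [kS, Submodule.span_le]
      rintro _ ⟨s, hs, rfl⟩
      have h2 : d * s.val = s.val * cj k s⁻¹ d := by
        rw [cj_apply, inv_inv, ← mul_assoc s.val, grp_mul_inv, one_mul]
      rw [SetLike.mem_coe, Submodule.mem_comap, LinearMap.mulLeft_apply, h2]
      exact Submodule.mul_mem_mul (Submodule.subset_span ⟨s, hs, rfl⟩)
        (hD s⁻¹ (hS.2 s hs) (Submodule.mem_map_of_mem hd))
    exact h1 ht
  · rw [Submodule.mul_le]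
    intro t ht d hd
    have h1 : kS k (S : Set (GroupLike k H)) ≤
        (D * kS k (S : Set (GroupLike k H))).comap (LinearMap.mulRight k d) := by
      rw [kS, Submodule.span_le]
      rintro _ ⟨s, hs, rfl⟩
      have h2 : s.val * d = cj k s d * s.val := by
        rw [cj_apply, mul_assoc, mul_assoc, grp_inv_mul, mul_one]
      rw [SetLike.mem_coe, Submodule.mem_comap, LinearMap.mulRight_apply, h2]
      exact Submodule.mul_mem_mul (hD s hs (Submodule.mem_map_of_mem hd))
        (Submodule.subset_span ⟨s, hs, rfl⟩)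
    exact h1 ht

theorem one_le_finrank_kS {S : Finset (GroupLike k H)} (h1 : (1 : GroupLike k H) ∈ S) (n : ℕ) :
    1 ≤ Module.finrank k ↥(kS k (S : Set (GroupLike k H)) ^ n) := by
  have hfin : Module.Finite k ↥(kS k (S : Set (GroupLike k H)) ^ n) :=
    Module.Finite.iff_fg.2 ((kS_fg k S).pow n)
  have h2 : (1 : H) ∈ kS k (S : Set (GroupLike k H)) ^ n :=
    (one_le_pow_of_one_le' (one_le_kS k (Finset.mem_coe.2 h1)) n) (Submodule.one_le.1 le_rfl)
  have h3 : (1 : H) ≠ 0 := fun h => by
    have := congrArg (Coalgebra.counit (R := k)) h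
    rw [Bialgebra.counit_one, map_zero] at this
    exact one_ne_zero this
  rw [Nat.one_le_iff_ne_zero]
  intro h4
  rw [Submodule.finrank_eq_zero] at h4
  rw [h4] at h2
  exact h3 (by simpa using h2)

/-- the growth of `D S` for a stable flagged subspace `D` -/
theorem asm_L_mul {S : Finset (GroupLike k H)} (hS : Sym k S) {D : Submodule k H}
    (hD : Flagged k D) (hDS : Stb k (S : Set (GroupLike k H)) D)
    (hfin : asm_L k D ≠ ⊤) :
    asm_L k (D * kS k (S : Set (GroupLike k H))) =
      asm_L k (kS k (S : Set (GroupLike k H))) + asm_L k D := by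
  rcases hD.growth with h | ⟨r, c, C, hc, hb⟩
  · exact absurd h hfin
  have hr : asm_L k D = r := asm_L_eq k hc (fun n hn => (hb n hn).1) (fun n hn => (hb n hn).2)
  rw [hr, asm_L_eq_Gr, asm_L_eq_Gr, ← Gr_mul (one_le_finrank_kS k hS.1) hc hb]
  congr 1
  funext n
  rw [(commute_kS k hS hDS).mul_pow]
  obtain ⟨N, hN⟩ := (hD.pow n).le_U
  exact finrank_mul_pow k S (hD.fg.pow n) hN n

/-! ### the group algebra -/

/-- the group algebra of the group-likes maps to `H` -/
noncomputable def grp : MonoidAlgebra k (GroupLike k H) →ₐ[k] H :=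
  MonoidAlgebra.lift k H (GroupLike k H) (GroupLike.valMonoidHom k H)

theorem grp_of (g : GroupLike k H) : grp k (MonoidAlgebra.of k (GroupLike k H) g) = g.val := by
  rw [grp, MonoidAlgebra.lift_of]
  rfl

theorem grp_inj : Function.Injective (grp k (H := H)) := by
  rw [injective_iff_map_eq_zero]
  intro x hx
  have h1 : grp k x = x.coeff.sum fun g a => a • g.val := by
    rw [grp, MonoidAlgebra.lift_apply]
    rfl
  rw [h1] at hx
  have h2 := (linearIndep_groupLikeVal (R := k) (A := H))
  rw [linearIndependent_iff] at h2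
  exact MonoidAlgebra.coeff_injective (h2 x.coeff hx)

theorem asm_L_map (V : Submodule k (MonoidAlgebra k (GroupLike k H))) :
    asm_L k (V.map (grp k (H := H)).toLinearMap) = asm_L k V := by
  rw [asm_L_eq_Gr]
  change Gr _ = Gr _
  congr 1
  funext n
  rw [← Submodule.map_pow]
  exact (Submodule.equivMapOfInjective (grp k (H := H)).toLinearMap (grp_inj k) (V ^ n)).symm.finrank_eq

end

end Pool.Agent.GKC
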