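import Pool.Agent.Lib_helper67.GKC.C

/-!
MP_49c8ed_al. The filtration by weights of words, for arbitrary weights.
-/

set_option autoImplicit false

universe u v

namespace Pool.Agent.GKC

open TensorProduct Pool.Agent.GK

section
variable (k : Type u) [Field k] {H : Type v} [Ring H] [Bialgebra k H] {m : ℕ}

/-- the filtration by the weights of words -/
def fwF (c : Fin m → H) (w : Fin m → ℕ) (n : ℕ) : Submodule k H :=
  Submodule.span k {z | ∃ l : List (Fin m), (l.map w).sum ≤ n ∧ z = (l.map c).prod}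

variable (c : Fin m → H) (w : Fin m → ℕ)

theorem fw_mem {n : ℕ} (l : List (Fin m)) (h : (l.map w).sum ≤ n) :
    (l.map c).prod ∈ fwF k c w n := Submodule.subset_span ⟨l, h, rfl⟩

theorem fw_mono : Monotone (fwF k c w) := by
  intro a b hab
  refine Submodule.span_mono ?_
  rintro z ⟨l, h, e⟩
  exact ⟨l, h.trans hab, e⟩

theorem fw_one_mem (n : ℕ) : (1 : H) ∈ fwF k c w n := by
  have h := fw_mem k c w (n := n) [] (by simp)
  simpa using h

theorem fw_c_mem (i : Fin m) : c i ∈ fwF k c w (w i) := by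
  have h := fw_mem k c w (n := w i) [i] (by simp)
  simpa using h

theorem fw_mul_le (a b : ℕ) : fwF k c w a * fwF k c w b ≤ fwF k c w (a + b) := by
  unfold fwF
  rw [Submodule.span_mul_span]
  refine Submodule.span_mono ?_
  rintro _ ⟨x, ⟨l, h, rfl⟩, y, ⟨l', h', rfl⟩, rfl⟩
  refine ⟨l ++ l', ?_, ?_⟩
  · rw [List.map_append, List.sum_append]
    omega
  · simp [List.map_append, List.prod_append]

theorem fw_mul (a b : ℕ) : ∀ x ∈ fwF k c w a, ∀ y ∈ fwF k c w b, x * y ∈ fwF k c w (a + b) :=
  fun _ hx _ hy => fw_mul_le k c w a b (Submodule.mul_mem_mul hx hy)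

variable {w}

theorem fw_len_le (hw : ∀ i, 1 ≤ w i) (l : List (Fin m)) : l.length ≤ (l.map w).sum := by
  induction l with
  | nil => exact le_rfl
  | cons i l ih =>
    have := hw i
    rw [List.length_cons, List.map_cons, List.sum_cons]
    omega

theorem fw_comul_c (hc : ∀ j : Fin m, Coalgebra.comul (R := k) (c j) - c j ⊗ₜ[k] (1 : H) -
    (1 : H) ⊗ₜ[k] c j ∈ Tlt k (fwF k c w) (w j)) (j : Fin m) :
    Coalgebra.comul (R := k) (c j) ∈ TT k (fwF k c w) (w j) := by
  have h1 := filt_Tlt_le k _ _ (hc j)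
  have h2 : c j ⊗ₜ[k] (1 : H) ∈ TT k (fwF k c w) (w j) :=
    filt_TT_mem k (fw_c_mem k c w j) (fw_one_mem k c w 0) (by omega)
  have h3 : (1 : H) ⊗ₜ[k] c j ∈ TT k (fwF k c w) (w j) :=
    filt_TT_mem k (fw_one_mem k c w 0) (fw_c_mem k c w j) (by omega)
  have h4 := Submodule.add_mem _ (Submodule.add_mem _ h1 h3) h2
  have h5 : Coalgebra.comul (R := k) (c j) - c j ⊗ₜ[k] (1 : H) - (1 : H) ⊗ₜ[k] c j +
      (1 : H) ⊗ₜ[k] c j + c j ⊗ₜ[k] (1 : H) = Coalgebra.comul (R := k) (c j) := by abel
  rwa [h5] at h4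

theorem fw_comul_word (hc : ∀ j : Fin m, Coalgebra.comul (R := k) (c j) - c j ⊗ₜ[k] (1 : H) -
    (1 : H) ⊗ₜ[k] c j ∈ Tlt k (fwF k c w) (w j)) (l : List (Fin m)) :
    Coalgebra.comul (R := k) (l.map c).prod ∈ TT k (fwF k c w) (l.map w).sum := by
  induction l with
  | nil =>
    simp only [List.map_nil, List.prod_nil]
    rw [Bialgebra.comul_one, Algebra.TensorProduct.one_def]
    exact filt_TT_mem k (fw_one_mem k c w 0) (fw_one_mem k c w 0) (by omega)
  | cons i l ih =>
    simp only [List.map_cons, List.prod_cons, List.sum_cons]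
    rw [Bialgebra.comul_mul]
    exact filt_TT_mul k (fw_mul k c w) (w i) (l.map w).sum
      (Submodule.mul_mem_mul (fw_comul_c k c hc i) ih)

/-- the filtration by weights is a bialgebra filtration -/
theorem fw_pr (hw : ∀ i, 1 ≤ w i) (hc : ∀ j : Fin m, Coalgebra.comul (R := k) (c j) -
    c j ⊗ₜ[k] (1 : H) - (1 : H) ⊗ₜ[k] c j ∈ Tlt k (fwF k c w) (w j)) :
    IsFilt k (fwF k c w) c w := by
  refine ⟨?_, fw_mono k c w, ?_, fw_mul k c w, ?_, hw,
      fun i => ⟨fw_c_mem k c w i, hc i⟩, ?_⟩
  · refine le_antisymm ?_ ?_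
    · refine Submodule.span_le.mpr ?_
      rintro z ⟨l, h, rfl⟩
      have h1 := fw_len_le hw l
      have h2 : l = [] := List.length_eq_zero_iff.mp (by omega)
      subst h2
      exact Submodule.subset_span (by simp)
    · rw [Submodule.span_singleton_le_iff_mem]
      exact fw_one_mem k c w 0
  · intro n
    refine Submodule.fg_span ?_
    have h1 : {z : H | ∃ l : List (Fin m), (l.map w).sum ≤ n ∧ z = (l.map c).prod} ⊆
        (fun l : List (Fin m) => (l.map c).prod) '' {l | l.length ≤ n} := by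
      rintro z ⟨l, h, rfl⟩
      exact ⟨l, (fw_len_le hw l).trans h, rfl⟩
    exact ((List.finite_length_le (Fin m) n).image _).subset h1
  · intro n x hx
    refine Submodule.span_induction ?_ ?_ ?_ ?_ hx
    · rintro z ⟨l, h, rfl⟩
      exact filt_TT_mono k _ h (fw_comul_word k c hc l)
    · rw [map_zero]
      exact Submodule.zero_mem _
    · intro x y _ _ hx hy
      rw [map_add]
      exact Submodule.add_mem _ hx hy
    · intro a x _ hx
      rw [map_smul]
      exact Submodule.smul_mem _ _ hx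
  · intro n hn
    refine Submodule.span_le.mpr ?_
    rintro z ⟨l, h, rfl⟩
    cases l with
    | nil =>
      refine Submodule.mem_sup_left ?_
      obtain ⟨n', rfl⟩ : ∃ n', n = n' + 1 := ⟨n - 1, by omega⟩
      rw [List.map_nil, List.prod_nil]
      exact fw_one_mem k c w n'
    | cons i l =>
      refine Submodule.mem_sup_right (Submodule.subset_span ?_)
      rw [List.map_cons, List.sum_cons] at h
      refine ⟨i, by omega, (l.map c).prod, fw_mem k c w l (by omega), ?_⟩
      rw [List.map_cons, List.prod_cons]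

/-- words in letters from `V ^ a` -/
theorem fw_le_pow (hw : ∀ i, 1 ≤ w i) {V : Submodule k H} (hV : (1 : Submodule k H) ≤ V)
    {a : ℕ} (h : ∀ i, c i ∈ V ^ a) (n : ℕ) : fwF k c w n ≤ V ^ (a * n) := by
  refine Submodule.span_le.mpr ?_
  rintro z ⟨l, hl, rfl⟩
  have h1 : (l.map c).prod ∈ V ^ (a * l.length) := by
    clear hl
    induction l with
    | nil =>
      rw [List.map_nil, List.prod_nil, List.length_nil, mul_zero, pow_zero]
      exact Submodule.one_le.mp le_rfl
    | cons i l ih =>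
      rw [List.map_cons, List.prod_cons, List.length_cons, Nat.mul_succ, add_comm, pow_add]
      exact Submodule.mul_mem_mul (h i) ih
  exact pow_le_pow_right₀ hV (Nat.mul_le_mul_left a ((fw_len_le hw l).trans hl)) h1

end

end Pool.Agent.GKC
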