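import Pool.Agent.Lib_helper67.GKC.G

/-!
MP_49c8ed_al. Over an algebraically closed field a cocommutative Hopf algebra is spanned by the
products of the irreducible component of `1` with the group-likes.
-/

set_option autoImplicit false

universe u v

namespace Pool.Agent.GKC

open TensorProduct Pool.Agent.GK

section
variable (k : Type u) [Field k] {H : Type v} [Ring H] [Bialgebra k H] [Coalgebra.IsCocomm k H]

theorem conv_comm (f g : Module.Dual k H) : FLAG_conv k f g = FLAG_conv k g f := by
  ext x
  rw [FLAG_conv_apply, FLAG_conv_apply]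
  have h : ∀ t : H ⊗[k] H, LinearMap.mul' k k (TensorProduct.map f g (TensorProduct.comm k H H t)) =
      LinearMap.mul' k k (TensorProduct.map g f t) := by
    intro t
    induction t with
    | zero => simp
    | tmul a b => simp [mul_comm]
    | add s t hs ht => simp only [map_add, hs, ht]
  rw [← h, Coalgebra.comm_comul]

theorem L_comm (f g : Module.Dual k H) (x : H) :
    FLAG_L k f (FLAG_L k g x) = FLAG_L k g (FLAG_L k f x) := by
  rw [FLAG_LL, FLAG_LL, conv_comm]

/-- a finite-dimensional stable subspace on which the functionals with `f 1 = 0` are nilpotent is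
in the irreducible component of `1` -/
theorem nil_U : ∀ (d : ℕ) (X : Submodule k H), X.FG → Module.finrank k X ≤ d →
    (∀ f, ∀ x ∈ X, FLAG_L k f x ∈ X) →
    (∀ f : Module.Dual k H, f 1 = 0 → ∀ x ∈ X, ∃ n : ℕ, ((FLAG_L k f) ^ n) x = 0) →
    X ≤ U k H d := by
  intro d
  induction d with
  | zero =>
    intro X hX hd _ _
    have : Module.Finite k X := Module.Finite.iff_fg.2 hX
    rw [Submodule.finrank_eq_zero.1 (Nat.le_zero.1 hd)]
    exact bot_le
  | succ d ih =>
    intro X hX hd hs hn
    have hfin : Module.Finite k X := Module.Finite.iff_fg.2 hX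
    intro x hx
    rw [mem_U_succ]
    intro f hf
    by_cases h0 : X = ⊥
    · rw [h0, Submodule.mem_bot] at hx
      rw [hx, map_zero]
      exact Submodule.zero_mem _
    have hle : X.map (FLAG_L k f) ≤ X := by
      rw [Submodule.map_le_iff_le_comap]
      exact fun y hy => hs f y hy
    have hne : X.map (FLAG_L k f) ≠ X := by
      intro heq
      set g : X →ₗ[k] X := (FLAG_L k f).restrict (hs f) with hg
      have hsurj : Function.Surjective g := by
        rintro ⟨y, hy⟩
        rw [← heq] at hy
        obtain ⟨z, hz, hzy⟩ := hy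
        exact ⟨⟨z, hz⟩, Subtype.ext hzy⟩
      have hinj : Function.Injective g := LinearMap.injective_iff_surjective.2 hsurj
      obtain ⟨y, hy, hy0⟩ := Submodule.exists_mem_ne_zero_of_ne_bot h0
      obtain ⟨n, hn⟩ := hn f hf y hy
      have h1 : ∀ n : ℕ, ∀ z : X, ((g ^ n) z).val = ((FLAG_L k f) ^ n) z.val := by
        intro n
        induction n with
        | zero => exact fun z => rfl
        | succ n ihn =>
          intro z
          rw [pow_succ', pow_succ', Module.End.mul_apply, Module.End.mul_apply, ← ihn]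
          rfl
      have h2 : (g ^ n) ⟨y, hy⟩ = 0 := Subtype.ext (by rw [h1, hn]; rfl)
      have h3 : Function.Injective (g ^ n) := by
        rw [Module.End.coe_pow]
        exact hinj.iterate n
      have h4 := h3 (h2.trans (map_zero _).symm)
      exact hy0 (congrArg Subtype.val h4)
    have hlt : Module.finrank k ↥(X.map (FLAG_L k f)) < Module.finrank k X :=
      Submodule.finrank_lt_finrank_of_lt (lt_of_le_of_ne hle hne)
    refine ih (X.map (FLAG_L k f)) (hX.map _) (by omega) ?_ ?_ (Submodule.mem_map_of_mem hx)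
    · rintro g _ ⟨y, hy, rfl⟩
      exact ⟨FLAG_L k g y, hs g y hy, (L_comm k f g y)⟩
    · exact fun g hg y hy => hn g hg y (hle hy)

end

section
variable (k : Type u) [Field k] {H : Type v} [Ring H] [HopfAlgebra k H] [Coalgebra.IsCocomm k H]

/-- a joint generalized eigenspace is a translate of a subspace of the irreducible component -/
theorem joint_spl (X : Submodule k H) (hX : X.FG) (hs : ∀ f, ∀ x ∈ X, FLAG_L k f x ∈ X)
    (χ : Module.Dual k H → k)
    (hχ : ∀ f : Module.Dual k H, ∀ x ∈ X, ∃ n : ℕ, ((FLAG_L k f - χ f • 1) ^ n) x = 0) :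
    ∀ x ∈ X, ∃ n, ∃ u ∈ U k H n, ∃ g : GroupLike k H, x = u * g.val := by
  by_cases h0 : X = ⊥
  · intro x hx
    rw [h0, Submodule.mem_bot] at hx
    exact ⟨0, 0, Submodule.zero_mem _, 1, by rw [hx, zero_mul]⟩
  have hfin : Module.Finite k X := Module.Finite.iff_fg.2 hX
  -- a common eigenvector
  let T : Set (Submodule k H) := {M | M ≤ X ∧ M ≠ ⊥ ∧ ∀ f, ∀ x ∈ M, FLAG_L k f x ∈ M}
  obtain ⟨M, ⟨hMX, hM0, hMs⟩, hmin⟩ := WellFounded.has_min
    (measure (fun M : Submodule k H => Module.finrank k M)).wf T ⟨X, le_rfl, h0, hs⟩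
  have hMfin : Module.Finite k M := Submodule.finiteDimensional_of_le hMX
  have heig : ∀ f : Module.Dual k H, ∀ x ∈ M, FLAG_L k f x = χ f • x := by
    intro f
    set A : H →ₗ[k] H := FLAG_L k f - χ f • 1 with hA
    have hAM : ∀ x ∈ M, A x ∈ M := by
      intro x hx
      rw [hA, LinearMap.sub_apply, LinearMap.smul_apply, Module.End.one_apply]
      exact Submodule.sub_mem _ (hMs f x hx) (Submodule.smul_mem _ _ hx)
    have hle : M.map A ≤ M := by
      rw [Submodule.map_le_iff_le_comap]
      exact hAM
    have hbot : M.map A = ⊥ := by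
      by_contra hne0
      have h1 : ¬ Module.finrank k ↥(M.map A) < Module.finrank k M := by
        refine hmin (M.map A) ⟨hle.trans hMX, hne0, ?_⟩
        rintro g _ ⟨y, hy, rfl⟩
        refine ⟨FLAG_L k g y, hMs g y hy, ?_⟩
        rw [hA, LinearMap.sub_apply, LinearMap.sub_apply, LinearMap.smul_apply,
          LinearMap.smul_apply, Module.End.one_apply, Module.End.one_apply, map_sub, map_smul,
          L_comm k f g y]
      have heq : M.map A = M := Submodule.eq_of_le_of_finrank_le hle (Nat.not_lt.1 h1)
      set g : M →ₗ[k] M := A.restrict hAM with hg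
      have hsurj : Function.Surjective g := by
        rintro ⟨y, hy⟩
        rw [← heq] at hy
        obtain ⟨z, hz, hzy⟩ := hy
        exact ⟨⟨z, hz⟩, Subtype.ext hzy⟩
      have hinj : Function.Injective g := LinearMap.injective_iff_surjective.2 hsurj
      obtain ⟨y, hy, hy0⟩ := Submodule.exists_mem_ne_zero_of_ne_bot hM0
      obtain ⟨n, hn⟩ := hχ f y (hMX hy)
      have h1 : ∀ n : ℕ, ∀ z : M, ((g ^ n) z).val = (A ^ n) z.val := by
        intro n
        induction n with
        | zero => exact fun z => rfl
        | succ n ihn =>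
          intro z
          rw [pow_succ', pow_succ', Module.End.mul_apply, Module.End.mul_apply, ← ihn]
          rfl
      have h2 : (g ^ n) ⟨y, hy⟩ = 0 := Subtype.ext (by rw [h1, hn]; rfl)
      have h3 : Function.Injective (g ^ n) := by
        rw [Module.End.coe_pow]
        exact hinj.iterate n
      have h4 := h3 (h2.trans (map_zero _).symm)
      exact hy0 (congrArg Subtype.val h4)
    intro x hx
    have h1 : A x ∈ M.map A := Submodule.mem_map_of_mem hx
    rw [hbot, Submodule.mem_bot, hA, LinearMap.sub_apply, LinearMap.smul_apply,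
      Module.End.one_apply, sub_eq_zero] at h1
    exact h1
  obtain ⟨v, hv, hv0⟩ := Submodule.exists_mem_ne_zero_of_ne_bot hM0
  have hval : ∀ f : Module.Dual k H, f v = χ f * Coalgebra.counit (R := k) v := by
    intro f
    rw [← FLAG_counitL k f v, heig f v hv, map_smul, smul_eq_mul]
  have hε : Coalgebra.counit (R := k) v ≠ 0 := by
    intro h
    apply hv0
    rw [← Module.forall_dual_apply_eq_zero_iff k]
    intro f
    rw [hval, h, mul_zero]
  set a : k := Coalgebra.counit (R := k) v with ha
  have hg : IsGroupLikeElem k (a⁻¹ • v) := by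
    constructor
    · rw [map_smul, smul_eq_mul, ← ha, inv_mul_cancel₀ hε]
    · rw [← sub_eq_zero]
      apply FLAG_sepL k
      intro f
      have e : a⁻¹ • (χ f * a) = χ f := by
        rw [smul_eq_mul, mul_comm (χ f), ← mul_assoc, inv_mul_cancel₀ hε, one_mul]
      rw [map_sub, map_sub, ← FLAG_L_apply, map_smul, heig f v hv, LinearMap.lTensor_tmul,
        TensorProduct.rid_tmul, map_smul, hval f, e, smul_comm, sub_self]
  set g : GroupLike k H := ⟨a⁻¹ • v, hg⟩ with hgdef
  have hχg : ∀ f : Module.Dual k H, χ f = f g.val := by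
    intro f
    change χ f = f (a⁻¹ • v)
    rw [map_smul, hval, smul_eq_mul, mul_comm (χ f), ← mul_assoc, inv_mul_cancel₀ hε,
      one_mul]
  -- the translate
  set X' : Submodule k H := X.map (LinearMap.mulRight k (g⁻¹).val) with hX'
  have hX's : ∀ f, ∀ x ∈ X', FLAG_L k f x ∈ X' := by
    rintro f _ ⟨y, hy, rfl⟩
    rw [LinearMap.mulRight_apply, L_mul_grp]
    exact ⟨_, hs _ y hy, rfl⟩
  have hX'n : ∀ f : Module.Dual k H, f 1 = 0 → ∀ x ∈ X', ∃ n : ℕ, ((FLAG_L k f) ^ n) x = 0 := by
    rintro f hf _ ⟨y, hy, rfl⟩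
    set f' : Module.Dual k H := f ∘ₗ LinearMap.mulRight k (g⁻¹).val with hf'
    obtain ⟨n, hn⟩ := hχ f' y hy
    have h1 : χ f' = 0 := by
      rw [hχg, hf', LinearMap.comp_apply, LinearMap.mulRight_apply, grp_mul_inv, hf]
    rw [h1, zero_smul, sub_zero] at hn
    refine ⟨n, ?_⟩
    have h2 : ∀ n : ℕ, ((FLAG_L k f) ^ n) (y * (g⁻¹).val) =
        ((FLAG_L k f') ^ n) y * (g⁻¹).val := by
      intro n
      induction n with
      | zero => rfl
      | succ n ihn =>
        rw [pow_succ', pow_succ', Module.End.mul_apply, Module.End.mul_apply, ihn, L_mul_grp]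
    rw [LinearMap.mulRight_apply, h2, hn, zero_mul]
  have hX'U := nil_U k (Module.finrank k X') X' (hX.map _) le_rfl hX's hX'n
  intro x hx
  refine ⟨_, x * (g⁻¹).val, hX'U ⟨x, hx, rfl⟩, g, ?_⟩
  rw [mul_assoc, grp_inv_mul, mul_one]

variable (H) in
/-- P1 -/
theorem spl_of_cocomm [IsAlgClosed k] : Spl k H := by
  intro x
  -- the left stable subspace generated by `x`
  set C : Submodule k H := LinearMap.range ((FLAG_L k).flip x) with hC
  have hxC : x ∈ C := ⟨Coalgebra.counit (R := k), FLAG_Lcounit k x⟩
  have hCs : ∀ f, ∀ y ∈ C, FLAG_L k f y ∈ C := by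
    rintro f _ ⟨g, rfl⟩
    rw [LinearMap.flip_apply, FLAG_LL]
    exact ⟨_, rfl⟩
  have hCfg : C.FG := by
    obtain ⟨W, hW, h1⟩ := FLAG_finL k (Coalgebra.comul (R := k) x)
    have : Module.Finite k W := Module.Finite.iff_fg.2 hW
    have hle : C ≤ W := by
      rintro _ ⟨g, rfl⟩
      exact h1 g
    exact Module.Finite.iff_fg.1 (Submodule.finiteDimensional_of_le hle)
  have hCfin : Module.Finite k C := Module.Finite.iff_fg.2 hCfg
  set T : Module.Dual k H → Module.End k C := fun f => (FLAG_L k f).restrict (hCs f) with hT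
  have hTc : Pairwise (Function.onFun Commute T) := by
    intro f g _
    refine LinearMap.ext fun y => Subtype.ext ?_
    exact L_comm k f g y.val
  have htop := Module.End.iSup_iInf_maxGenEigenspace_eq_top_of_iSup_maxGenEigenspace_eq_top_of_commute
    T hTc (fun f => Module.End.iSup_maxGenEigenspace_eq_top (T f))
  have hpow : ∀ (f : Module.Dual k H) (a : k) (n : ℕ) (z : C),
      (((T f - a • 1) ^ n) z).val = ((FLAG_L k f - a • 1) ^ n) z.val := by
    intro f a n
    induction n with
    | zero => exact fun z => rfl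
    | succ n ihn =>
      intro z
      rw [pow_succ', pow_succ', Module.End.mul_apply, Module.End.mul_apply, ← ihn]
      rfl
  have hx1 : (⟨x, hxC⟩ : C) ∈ (⊤ : Submodule k C) := Submodule.mem_top
  rw [← htop] at hx1
  have key : (⨆ χ : Module.Dual k H → k, ⨅ f, (T f).maxGenEigenspace (χ f)) ≤
      (Submodule.span k {z : H | ∃ n, ∃ u ∈ U k H n, ∃ g : GroupLike k H,
        z = u * g.val}).comap C.subtype := by
    refine iSup_le fun χ => ?_
    intro z hz
    rw [Submodule.mem_comap, Submodule.subtype_apply]
    apply Submodule.subset_span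
    refine joint_spl k ((⨅ f, (T f).maxGenEigenspace (χ f)).map C.subtype) ?_ ?_ χ ?_ z.val
      ⟨z, hz, rfl⟩
    · have : Module.Finite k ↥(⨅ f, (T f).maxGenEigenspace (χ f)) := inferInstance
      exact (Module.Finite.iff_fg.1 this).map _
    · rintro g _ ⟨y, hy, rfl⟩
      refine ⟨T g y, ?_, rfl⟩
      rw [SetLike.mem_coe, Submodule.mem_iInf] at hy ⊢
      intro f
      have h1 := hy f
      rw [Module.End.mem_maxGenEigenspace] at h1 ⊢
      obtain ⟨n, hn⟩ := h1
      refine ⟨n, ?_⟩
      have hc : Commute ((T f - χ f • 1) ^ n) (T g) := by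
        apply Commute.pow_left
        have h3 : Commute (T f) (T g) := by
          by_cases hfg : f = g
          · rw [hfg]
          · exact hTc hfg
        have h4 : (T f - χ f • 1) * T g = T g * (T f - χ f • 1) := by
          refine LinearMap.ext fun z => ?_
          have h5 := LinearMap.congr_fun h3.eq z
          rw [Module.End.mul_apply, Module.End.mul_apply] at h5 ⊢
          rw [LinearMap.sub_apply, LinearMap.sub_apply, LinearMap.smul_apply,
            LinearMap.smul_apply, Module.End.one_apply, Module.End.one_apply, map_sub, map_smul,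
            h5]
        exact h4
      have h2 := LinearMap.congr_fun hc.eq y
      rw [Module.End.mul_apply, Module.End.mul_apply] at h2
      rw [h2, hn, map_zero]
    · rintro f _ ⟨y, hy, rfl⟩
      rw [SetLike.mem_coe, Submodule.mem_iInf] at hy
      obtain ⟨n, hn⟩ := (Module.End.mem_maxGenEigenspace _ _ _).1 (hy f)
      exact ⟨n, by rw [Submodule.subtype_apply, ← hpow, hn]; rfl⟩
  exact key hx1

end

end Pool.Agent.GKC
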