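import Pool.Agent.Lib_helper67.GKC.P

/-!
MP_49c8ed_al. The irreducible component of `1` through wedges, and the final form of the theorem.
-/

set_option autoImplicit false

universe u v

namespace Pool.Agent.GKC

open TensorProduct Pool.Agent.GK Filter Topology

section bialg
variable (k : Type u) [Field k] (H : Type v) [Ring H] [Bialgebra k H]

/-- The coradical filtration of the irreducible component of `1`: `comp1 0 = k 1`, and
`comp1 (n + 1)` consists of the `x` with `Δ x` in `H ⊗ k 1 + comp1 n ⊗ H`. -/
noncomputable def comp1 : ℕ → Submodule k H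
  | 0 => Submodule.span k {1}
  | n + 1 => (tsp k ⊤ (Submodule.span k {1}) ⊔ tsp k (comp1 n) ⊤).comap
      (Coalgebra.comul (R := k))

/-- The irreducible component of `1` in `H`. -/
noncomputable def component : Submodule k H := ⨆ n, comp1 k H n

variable {H} in
/-- The Gelfand-Kirillov dimension of a subspace `A` of `H` which is closed under multiplication. -/
noncomputable def GKsub (A : Submodule k H) : ENNReal :=
  ⨆ (V : Submodule k H) (_ : (1 ≤ V ∧ V.FG) ∧ V ≤ A),
    Filter.limsup
      (fun n : ℕ =>
        ENNReal.ofReal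
          (Real.log ((Module.finrank k ↥(V ^ n) : ℕ) : ℝ) / Real.log (n : ℝ)))
      Filter.atTop

theorem comp1_eq (n : ℕ) : comp1 k H n = U k H n := by
  induction n with
  | zero => rfl
  | succ n ih =>
    rw [comp1, ih]
    apply le_antisymm
    · intro x hx
      rw [mem_U_succ]
      intro f hf
      rw [FLAG_L_apply]
      have h1 : (tsp k ⊤ (Submodule.span k {1}) ⊔ tsp k (U k H n) ⊤ : Submodule k (H ⊗[k] H)) ≤
          (U k H n).comap ((TensorProduct.rid k H).toLinearMap ∘ₗ LinearMap.lTensor H f) := by
        refine sup_le ?_ ?_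
        · rw [tsp, Submodule.map₂_le]
          intro a _ b hb
          obtain ⟨c, rfl⟩ := Submodule.mem_span_singleton.1 hb
          simp [hf]
        · rw [tsp, Submodule.map₂_le]
          intro a ha b _
          simpa using Submodule.smul_mem _ (f b) ha
      exact h1 hx
    · intro x hx
      have htop : IsSubcoalgebra k (⊤ : Submodule k H) := by
        rw [FLAG_sub_iff]
        exact ⟨fun _ _ _ => Submodule.mem_top, fun _ _ _ => Submodule.mem_top⟩
      have h1 := U_prim k htop (x := x) Submodule.mem_top Submodule.mem_top hx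
      rw [top_inf_eq] at h1
      rw [Submodule.mem_comap]
      have h2 : Coalgebra.comul (R := k) x = x ⊗ₜ[k] (1 : H) +
          ((1 : H) ⊗ₜ[k] x + (Coalgebra.comul (R := k) x - x ⊗ₜ[k] (1 : H) -
            (1 : H) ⊗ₜ[k] x)) := by abel
      rw [h2]
      refine Submodule.add_mem_sup ?_ (Submodule.add_mem _ ?_ ?_)
      · exact Submodule.apply_mem_map₂ _ Submodule.mem_top (Submodule.mem_span_singleton_self 1)
      · exact Submodule.apply_mem_map₂ _ (one_mem_U k n) Submodule.mem_top
      · exact Submodule.map₂_le_map₂ le_rfl le_top h1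

theorem mem_component {x : H} : x ∈ component k H ↔ ∃ n, x ∈ U k H n := by
  unfold component
  have h : (fun n => comp1 k H n) = U k H := funext fun n => comp1_eq k H n
  rw [show (⨆ n, comp1 k H n) = ⨆ n, U k H n by rw [← h]]
  exact Submodule.mem_iSup_of_directed _ (U_mono k).directed_le

theorem flagged_le_component {D : Submodule k H} (hD : Flagged k D) : D ≤ component k H := by
  obtain ⟨n, hn⟩ := hD.le_U
  exact fun x hx => (mem_component k H).2 ⟨n, hn hx⟩

/-- a finitely generated subspace of the component lies in a flagged one -/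
theorem exists_flagged_le {V : Submodule k H} (hfg : V.FG) (hV : V ≤ component k H) :
    ∃ D : Submodule k H, Flagged k D ∧ V ≤ D := by
  classical
  obtain ⟨t, rfl⟩ := hfg
  induction t using Finset.induction_on with
  | empty => exact ⟨1, Flagged.one k, by simp⟩
  | insert x t hx ih =>
    rw [Finset.coe_insert, Submodule.span_insert, sup_le_iff,
      Submodule.span_singleton_le_iff_mem] at hV
    obtain ⟨D, hD, h1⟩ := ih hV.2
    obtain ⟨n, hn⟩ := (mem_component k H).1 hV.1
    obtain ⟨D', hD', h2⟩ := exists_flagged k hn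
    refine ⟨D' ⊔ D, hD'.sup hD, ?_⟩
    rw [Finset.coe_insert, Submodule.span_insert, sup_le_iff,
      Submodule.span_singleton_le_iff_mem]
    exact ⟨Submodule.mem_sup_left h2, h1.trans le_sup_right⟩

theorem GKsub_eq : GKsub k (component k H) =
    ⨆ D : {D : Submodule k H // Flagged k D}, asm_L k D.1 := by
  apply le_antisymm
  · refine iSup₂_le fun V hV => ?_
    change asm_L k V ≤ _
    obtain ⟨D, hD, hVD⟩ := exists_flagged_le k H hV.1.2 hV.2
    exact (asm_L_mono k hVD hD.fg).trans
      (le_iSup (fun D : {D : Submodule k H // Flagged k D} => asm_L k D.1) ⟨D, hD⟩)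
  · refine iSup_le fun D => ?_
    exact le_iSup₂_of_le (f := fun (V : Submodule k H)
      (_ : (1 ≤ V ∧ V.FG) ∧ V ≤ component k H) => asm_L k V) D.1
      ⟨⟨Submodule.one_le.2 D.2.one_mem, D.2.fg⟩, flagged_le_component k H D.2⟩ le_rfl

end bialg

section hopf
variable (k : Type u) [Field k] (H : Type v) [Ring H] [HopfAlgebra k H]

/-- a Hopf algebra generated by the group-likes and the irreducible component of `1` -/
theorem spl_of_adjoin (h : Algebra.adjoin k ({g : H | IsGroupLikeElem k g} ∪
    (component k H : Set H)) = ⊤) : Spl k H := by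
  set W : Submodule k H := Submodule.span k {z : H | ∃ n, ∃ u ∈ U k H n, ∃ g : GroupLike k H,
    z = u * g.val} with hW
  have hmul : ∀ x ∈ W, ∀ y ∈ W, x * y ∈ W := by
    intro x hx y hy
    have h1 : W ≤ W.comap (LinearMap.mulRight k y) := by
      conv_lhs => rw [hW]
      rw [Submodule.span_le]
      rintro _ ⟨n, u, hu, g, rfl⟩
      have h2 : W ≤ W.comap (LinearMap.mulLeft k (u * g.val)) := by
        conv_lhs => rw [hW]
        rw [Submodule.span_le]
        rintro _ ⟨m, u', hu', g', rfl⟩
        obtain ⟨D, hD, huD⟩ := exists_flagged k hu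
        obtain ⟨D', hD', huD'⟩ := exists_flagged k (cj_U k hu' g)
        obtain ⟨N, hN⟩ := ((hD.sup hD').pow 2).le_U
        rw [SetLike.mem_coe, Submodule.mem_comap, LinearMap.mulLeft_apply]
        refine Submodule.subset_span ⟨N, u * cj k g u', hN ?_, g * g', ?_⟩
        · rw [pow_two]
          exact Submodule.mul_mem_mul (Submodule.mem_sup_left huD) (Submodule.mem_sup_right huD')
        · rw [cj_apply, GroupLike.val_mul]
          calc u * g.val * (u' * g'.val) = u * (g.val * (u' * (1 * g'.val))) := by
                simp only [mul_assoc, one_mul]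
            _ = u * (g.val * (u' * ((g⁻¹).val * g.val * g'.val))) := by rw [grp_inv_mul]
            _ = u * (g.val * (u' * (g⁻¹).val)) * (g.val * g'.val) := by simp only [mul_assoc]
      exact h2 hy
    exact h1 hx
  let A : Subalgebra k H :=
    { W.toAddSubmonoid with
      mul_mem' := fun {a b} ha hb => hmul a ha b hb
      algebraMap_mem' := fun r => by
        rw [Algebra.algebraMap_eq_smul_one]
        refine Submodule.smul_mem W _ (Submodule.subset_span ⟨0, 1, one_mem_U k 0, 1, ?_⟩)
        rw [GroupLike.val_one, mul_one] }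
  have h3 : Algebra.adjoin k ({g : H | IsGroupLikeElem k g} ∪ (component k H : Set H)) ≤ A := by
    rw [Algebra.adjoin_le_iff]
    rintro x (hx | hx)
    · exact Submodule.subset_span ⟨0, 1, one_mem_U k 0, ⟨x, hx⟩, (one_mul x).symm⟩
    · obtain ⟨n, hn⟩ := (mem_component k H).1 hx
      refine Submodule.subset_span ⟨n, x, hn, 1, ?_⟩
      rw [GroupLike.val_one, mul_one]
  intro x
  have h4 : x ∈ (⊤ : Subalgebra k H) := Algebra.mem_top
  rw [← h] at h4
  exact h3 h4

/-- the final form -/
theorem final_pr (h : Spl k H) : GKdim k H = ⊤ ∨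
    ((∀ x ∈ component k H, ∀ S : Finset (GroupLike k H), ∃ E : Submodule k H, E.FG ∧ x ∈ E ∧
      E ≤ component k H ∧ ∀ s ∈ S, ∀ y ∈ E, s.val * y * (s⁻¹).val ∈ E) ∧
    ∃ m : ℕ, GKsub k (component k H) = m ∧
      GKdim k H = GKdim k (MonoidAlgebra k (GroupLike k H)) + m) := by
  by_cases htop : GKdim k H = ⊤
  · exact Or.inl htop
  right
  constructor
  · intro x hx S
    obtain ⟨n, hn⟩ := (mem_component k H).1 hx
    obtain ⟨D, hD, hxD⟩ := exists_flagged k hn
    obtain ⟨T, hT, hST⟩ := exists_sym k S
    rcases stable_flag k T hT.1 hD with h1 | ⟨E, hE, hES, hDE⟩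
    · exact absurd h1 htop
    · refine ⟨E, hE.fg, hDE hxD, flagged_le_component k H hE, fun s hs y hy => ?_⟩
      rw [mul_assoc, ← cj_apply]
      exact hES s (hST hs) (Submodule.mem_map_of_mem hy)
  · rw [GKsub_eq]
    exact gen_pr2 k h htop

end hopf

end Pool.Agent.GKC
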