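import Pool.Agent.Lib_helper11.GK.Main

/-!
MP_49c8ed_al. The irreducible component of `1` of a bialgebra: the filtration `U n`, and flags.
-/

set_option autoImplicit false

universe u v

namespace Pool.Agent.GKC

open TensorProduct Pool.Agent.GK

section
variable (k : Type u) [Field k] {H : Type v} [Ring H] [Bialgebra k H]

variable (H) in
/-- the filtration of the irreducible component of `1` -/
noncomputable def U : ℕ → Submodule k H
  | 0 => Submodule.span k {1}
  | n + 1 => ⨅ f : {f : Module.Dual k H // f 1 = 0}, (U n).comap (FLAG_L k f.1)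

theorem mem_U_zero {x : H} : x ∈ U k H 0 ↔ ∃ a : k, a • (1 : H) = x :=
  Submodule.mem_span_singleton

theorem mem_U_succ {n : ℕ} {x : H} :
    x ∈ U k H (n + 1) ↔ ∀ f : Module.Dual k H, f 1 = 0 → FLAG_L k f x ∈ U k H n := by
  rw [U, Submodule.mem_iInf]
  exact ⟨fun h f hf => h ⟨f, hf⟩, fun h f => h f.1 f.2⟩

theorem one_mem_U (n : ℕ) : (1 : H) ∈ U k H n := by
  cases n with
  | zero => exact Submodule.mem_span_singleton_self 1
  | succ n =>
    rw [mem_U_succ]
    intro f hf
    rw [FLAG_L_one, hf, zero_smul]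
    exact Submodule.zero_mem _

theorem U_le_succ (n : ℕ) : U k H n ≤ U k H (n + 1) := by
  induction n with
  | zero =>
    rw [U, Submodule.span_singleton_le_iff_mem]
    exact one_mem_U k 1
  | succ n ih =>
    intro x hx
    rw [mem_U_succ] at hx ⊢
    exact fun f hf => ih (hx f hf)

theorem U_mono : Monotone (U k H) := monotone_nat_of_le_succ (U_le_succ k)

/-- a functional minus its value at `1` -/
theorem L_split (f : Module.Dual k H) (x : H) :
    FLAG_L k f x = FLAG_L k (f - f 1 • Coalgebra.counit (R := k)) x + f 1 • x := by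
  rw [map_sub, map_smul, LinearMap.sub_apply, LinearMap.smul_apply, FLAG_Lcounit]
  abel

theorem sub_one (f : Module.Dual k H) :
    (f - f 1 • Coalgebra.counit (R := k) : Module.Dual k H) 1 = 0 := by
  rw [LinearMap.sub_apply, LinearMap.smul_apply, Bialgebra.counit_one]
  simp

theorem U_L {n : ℕ} {x : H} (hx : x ∈ U k H n) (f : Module.Dual k H) :
    FLAG_L k f x ∈ U k H n := by
  cases n with
  | zero =>
    obtain ⟨a, rfl⟩ := (mem_U_zero k).1 hx
    rw [map_smul, FLAG_L_one]
    exact Submodule.smul_mem _ _ (Submodule.smul_mem _ _ (one_mem_U k 0))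
  | succ n =>
    rw [L_split]
    refine Submodule.add_mem _ (U_le_succ k n ?_) (Submodule.smul_mem _ _ hx)
    exact (mem_U_succ k).1 hx _ (sub_one k f)

theorem U_R {n : ℕ} {x : H} (hx : x ∈ U k H n) (f : Module.Dual k H) :
    FLAG_R k f x ∈ U k H n := by
  induction n generalizing x with
  | zero =>
    obtain ⟨a, rfl⟩ := (mem_U_zero k).1 hx
    rw [map_smul, FLAG_R_one]
    exact Submodule.smul_mem _ _ (Submodule.smul_mem _ _ (one_mem_U k 0))
  | succ n ih =>
    rw [mem_U_succ] at hx ⊢
    intro g hg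
    rw [FLAG_LR]
    exact ih (hx g hg)

theorem U_sub (n : ℕ) : IsSubcoalgebra k (U k H n) := by
  rw [FLAG_sub_iff]
  exact ⟨fun f x hx => U_L k hx f, fun f x hx => U_R k hx f⟩

/-- an element killed by all the functionals with `f 1 = 0` is a multiple of `1` -/
theorem mem_U_zero_of_L {y : H} (h : ∀ f : Module.Dual k H, f 1 = 0 → FLAG_L k f y = 0) :
    y ∈ U k H 0 := by
  rw [mem_U_zero]
  refine ⟨Coalgebra.counit (R := k) y, ?_⟩
  rw [← sub_eq_zero]
  rw [← Module.forall_dual_apply_eq_zero_iff k]
  intro f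
  have h1 : FLAG_L k f y = f 1 • y := by
    rw [L_split, h _ (sub_one k f), zero_add]
  have h2 := FLAG_counitL k f y
  rw [h1, map_smul] at h2
  rw [map_sub, map_smul, ← h2, smul_eq_mul, smul_eq_mul, mul_comm, sub_self]

/-- the filtration is symmetric -/
theorem U_R_lt {n : ℕ} {x : H} (hx : x ∈ U k H (n + 1)) {f : Module.Dual k H} (hf : f 1 = 0) :
    FLAG_R k f x ∈ U k H n := by
  induction n generalizing x with
  | zero =>
    apply mem_U_zero_of_L
    intro g hg
    obtain ⟨a, ha⟩ := (mem_U_zero k).1 ((mem_U_succ k).1 hx g hg)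
    rw [FLAG_LR, ← ha, map_smul, FLAG_R_one, hf, zero_smul, smul_zero]
  | succ n ih =>
    rw [mem_U_succ]
    intro g hg
    rw [FLAG_LR]
    exact ih ((mem_U_succ k).1 hx g hg)

/-! ### flags -/

/-- a subspace with a flag -/
def Flagged (D : Submodule k H) : Prop :=
  ∃ (m : ℕ) (c : Fin m → H), FLAG_cond k c ∧ Submodule.span k (insert (1 : H) (Set.range c)) = D

variable {k}

theorem Flagged.fg {D : Submodule k H} (h : Flagged k D) : D.FG := by
  obtain ⟨m, c, -, rfl⟩ := h
  exact Submodule.fg_span ((Set.finite_range c).insert 1)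

theorem Flagged.one_mem {D : Submodule k H} (h : Flagged k D) : (1 : H) ∈ D := by
  obtain ⟨m, c, -, rfl⟩ := h
  exact Submodule.subset_span (Set.mem_insert _ _)

theorem Flagged.sub {D : Submodule k H} (h : Flagged k D) : IsSubcoalgebra k D := by
  obtain ⟨m, c, h1, rfl⟩ := h
  exact FLAG_sub_of_cond k c h1

variable (k)

theorem range_snoc {m : ℕ} (c : Fin m → H) (x : H) :
    Set.range (Fin.snoc c x : Fin (m + 1) → H) = insert x (Set.range c) := by
  ext y
  constructor
  · rintro ⟨i, rfl⟩
    refine Fin.lastCases ?_ (fun i => ?_) i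
    · simp
    · simp
  · rintro (rfl | ⟨i, rfl⟩)
    · exact ⟨Fin.last m, by simp⟩
    · exact ⟨i.castSucc, by simp⟩

theorem flag_snoc {m : ℕ} (c : Fin m → H) (hc : FLAG_cond k c) (x : H)
    (hx : Coalgebra.comul (R := k) x - x ⊗ₜ[k] (1 : H) - (1 : H) ⊗ₜ[k] x ∈
      tsp k (Submodule.span k (insert (1 : H) (Set.range c)))
        (Submodule.span k (insert (1 : H) (Set.range c)))) :
    FLAG_cond k (Fin.snoc c x : Fin (m + 1) → H) := by
  intro j
  refine Fin.lastCases ?_ (fun i => ?_) j
  · have e : (Fin.snoc c x : Fin (m + 1) → H) '' {i | i < Fin.last m} = Set.range c := by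
      ext y
      constructor
      · rintro ⟨i, hi, rfl⟩
        obtain ⟨i', rfl⟩ := Fin.exists_castSucc_eq.2 (ne_of_lt hi)
        exact ⟨i', by simp⟩
      · rintro ⟨i, rfl⟩
        exact ⟨i.castSucc, Fin.castSucc_lt_last i, by simp⟩
    rw [e, Fin.snoc_last]
    exact hx
  · have e : (Fin.snoc c x : Fin (m + 1) → H) '' {i' | i' < i.castSucc} =
        c '' {i' | i' < i} := by
      ext y
      constructor
      · rintro ⟨i', hi', rfl⟩
        obtain ⟨i'', rfl⟩ := Fin.exists_castSucc_eq.2
          (ne_of_lt (lt_of_lt_of_le hi' (Fin.le_last _)))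
        exact ⟨i'', by simpa using hi', by simp⟩
      · rintro ⟨i', hi', rfl⟩
        exact ⟨i'.castSucc, by simpa using hi', by simp⟩
    rw [e, Fin.snoc_castSucc]
    exact hc i

/-- a flag can be extended by elements which are primitive modulo it -/
theorem Flagged.sup_span {D : Submodule k H} (h : Flagged k D) (s : Finset H)
    (hs : ∀ x ∈ s, Coalgebra.comul (R := k) x - x ⊗ₜ[k] (1 : H) - (1 : H) ⊗ₜ[k] x ∈ tsp k D D) :
    Flagged k (D ⊔ Submodule.span k (s : Set H)) := by
  classical
  induction s using Finset.induction_on with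
  | empty => simpa using h
  | insert x s hx ih =>
    obtain ⟨m, c, h1, h2⟩ := ih (fun y hy => hs y (Finset.mem_insert_of_mem hy))
    refine ⟨m + 1, Fin.snoc c x, ?_, ?_⟩
    · apply flag_snoc k c h1
      rw [h2]
      exact FLAG_tsp_mono k le_sup_left (hs x (Finset.mem_insert_self _ _))
    · rw [range_snoc, Set.insert_comm, Submodule.span_insert, h2, Finset.coe_insert,
        Submodule.span_insert]
      rw [← sup_assoc, ← sup_assoc, sup_comm (Submodule.span k {x}) D]

/-- elements of `U (n + 1)` in a subcoalgebra are primitive modulo `U n` -/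
theorem U_prim {D : Submodule k H} (hD : IsSubcoalgebra k D) (h1 : (1 : H) ∈ D) {n : ℕ} {x : H}
    (hx : x ∈ D) (hxU : x ∈ U k H (n + 1)) :
    Coalgebra.comul (R := k) x - x ⊗ₜ[k] (1 : H) - (1 : H) ⊗ₜ[k] x ∈
      tsp k (D ⊓ U k H n) (D ⊓ U k H n) := by
  have hD' := (FLAG_sub_iff k D).1 hD
  have h1' : (1 : H) ∈ D ⊓ U k H n := ⟨h1, one_mem_U k n⟩
  apply FLAG_TD
  · intro f
    have e : TensorProduct.rid k H (LinearMap.lTensor H f
        (Coalgebra.comul (R := k) x - x ⊗ₜ[k] (1 : H) - (1 : H) ⊗ₜ[k] x)) =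
        FLAG_L k (f - f 1 • Coalgebra.counit (R := k)) x - f x • (1 : H) := by
      rw [map_sub, map_sub, map_sub, map_sub, ← FLAG_L_apply, map_sub (FLAG_L k),
        map_smul (FLAG_L k), LinearMap.sub_apply, LinearMap.smul_apply, FLAG_Lcounit]
      simp
    rw [e]
    exact Submodule.sub_mem _ ⟨hD'.1 _ x hx, (mem_U_succ k).1 hxU _ (sub_one k f)⟩
      (Submodule.smul_mem _ _ h1')
  · intro f
    have e : TensorProduct.lid k H (LinearMap.rTensor H f
        (Coalgebra.comul (R := k) x - x ⊗ₜ[k] (1 : H) - (1 : H) ⊗ₜ[k] x)) =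
        FLAG_R k (f - f 1 • Coalgebra.counit (R := k)) x - f x • (1 : H) := by
      rw [map_sub, map_sub, map_sub, map_sub, ← FLAG_R_apply, map_sub (FLAG_R k),
        map_smul (FLAG_R k), LinearMap.sub_apply, LinearMap.smul_apply, FLAG_Rcounit]
      simp only [LinearMap.rTensor_tmul, TensorProduct.lid_tmul]
      abel
    rw [e]
    exact Submodule.sub_mem _ ⟨hD'.2 _ x hx, U_R_lt k hxU (sub_one k f)⟩
      (Submodule.smul_mem _ _ h1')

/-- a finite-dimensional subcoalgebra with `1` inside of the irreducible component has a flag -/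
theorem flagged_of_U {D : Submodule k H} (hfg : D.FG) (hD : IsSubcoalgebra k D)
    (h1 : (1 : H) ∈ D) {n : ℕ} (hn : D ≤ U k H n) : Flagged k D := by
  have hfin : Module.Finite k D := Module.Finite.iff_fg.2 hfg
  have key : ∀ n, Flagged k (D ⊓ U k H n) := by
    intro n
    induction n with
    | zero =>
      refine ⟨0, fun i => i.elim0, fun j => j.elim0, ?_⟩
      have e : Set.range (fun i : Fin 0 => (i.elim0 : H)) = ∅ := Set.range_eq_empty _
      rw [e, insert_empty_eq]
      apply le_antisymm
      · rw [Submodule.span_singleton_le_iff_mem]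
        exact ⟨h1, one_mem_U k 0⟩
      · exact inf_le_right
    | succ n ih =>
      have hfg' : (D ⊓ U k H (n + 1)).FG :=
        Module.Finite.iff_fg.1 (Submodule.finiteDimensional_of_le
          (inf_le_left : D ⊓ U k H (n + 1) ≤ D))
      obtain ⟨s, hs⟩ := hfg'
      have h2 := Flagged.sup_span k ih s (fun x hx => by
        have hx' : x ∈ D ⊓ U k H (n + 1) := by
          rw [← hs]
          exact Submodule.subset_span hx
        exact U_prim k hD h1 hx'.1 hx'.2)
      rw [hs, sup_eq_right.2 (inf_le_inf_left D (U_le_succ k n))] at h2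
      exact h2
  have h3 := key n
  rwa [inf_eq_left.2 hn] at h3

/-- the evaluation of a functional at the two factors of a tensor in `tsp D D` -/
theorem tsp_L {D : Submodule k H} {t : H ⊗[k] H} (ht : t ∈ tsp k D D) (f : Module.Dual k H) :
    TensorProduct.rid k H (LinearMap.lTensor H f t) ∈ D := by
  have h : tsp k D D ≤ D.comap ((TensorProduct.rid k H).toLinearMap ∘ₗ LinearMap.lTensor H f) := by
    rw [tsp, Submodule.map₂_le]
    intro a ha b hb
    simpa using D.smul_mem _ ha
  exact h ht

variable {k}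

/-- a flagged subspace is inside of the irreducible component -/
theorem Flagged.le_U {D : Submodule k H} (h : Flagged k D) : ∃ n, D ≤ U k H n := by
  obtain ⟨m, c, h1, rfl⟩ := h
  refine ⟨m, ?_⟩
  have key : ∀ n : ℕ, ∀ j : Fin m, j.val < n → c j ∈ U k H n := by
    intro n
    induction n with
    | zero => exact fun j hj => absurd hj (Nat.not_lt_zero _)
    | succ n ih =>
      intro j hj
      rw [mem_U_succ]
      intro f hf
      have h2 : Submodule.span k (insert (1 : H) (c '' {i | i < j})) ≤ U k H n := by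
        rw [Submodule.span_le]
        rintro y (rfl | ⟨i, hi, rfl⟩)
        · exact one_mem_U k n
        · refine ih i ?_
          have : i.val < j.val := hi
          omega
      have h3 := h2 (tsp_L k (h1 j) f)
      rw [map_sub, map_sub, map_sub, map_sub, ← FLAG_L_apply] at h3
      simp only [LinearMap.lTensor_tmul, TensorProduct.rid_tmul, hf, zero_smul, sub_zero] at h3
      have h4 := Submodule.add_mem _ h3 (Submodule.smul_mem _ (f (c j)) (one_mem_U k n))
      rwa [sub_add_cancel] at h4
  rw [Submodule.span_le]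
  rintro y (rfl | ⟨j, rfl⟩)
  · exact one_mem_U k m
  · exact key m j j.isLt

theorem Flagged.sup {D D' : Submodule k H} (h : Flagged k D) (h' : Flagged k D') :
    Flagged k (D ⊔ D') := by
  obtain ⟨n, hn⟩ := h.le_U
  obtain ⟨n', hn'⟩ := h'.le_U
  refine flagged_of_U k (n := max n n') (h.fg.sup h'.fg) ?_ (Submodule.mem_sup_left h.one_mem) ?_
  · rw [FLAG_sub_iff]
    have h1 := (FLAG_sub_iff k D).1 h.sub
    have h2 := (FLAG_sub_iff k D').1 h'.sub
    constructor
    · intro f x hx
      obtain ⟨y, hy, z, hz, rfl⟩ := Submodule.mem_sup.1 hx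
      rw [map_add]
      exact Submodule.add_mem_sup (h1.1 f y hy) (h2.1 f z hz)
    · intro f x hx
      obtain ⟨y, hy, z, hz, rfl⟩ := Submodule.mem_sup.1 hx
      rw [map_add]
      exact Submodule.add_mem_sup (h1.2 f y hy) (h2.2 f z hz)
  · exact sup_le (hn.trans (U_mono k (le_max_left _ _))) (hn'.trans (U_mono k (le_max_right _ _)))

variable (k)

/-- every element of the irreducible component lies in a flagged subspace -/
theorem exists_flagged {n : ℕ} {x : H} (hx : x ∈ U k H n) : ∃ D : Submodule k H, Flagged k D ∧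
    x ∈ D := by
  have fgR : ∀ V : Submodule k H, V.FG → (⨆ g, V.map (FLAG_R k g)).FG := by
    rintro _ ⟨s, rfl⟩
    choose W hW1 hW2 using fun x : H => FLAG_finR k (Coalgebra.comul (R := k) x)
    have : Module.Finite k ↥(⨆ x ∈ s, W x) := by
      rw [Module.Finite.iff_fg]
      exact Submodule.fg_biSup s W (fun x _ => hW1 x)
    have hle : (⨆ g, (Submodule.span k (s : Set H)).map (FLAG_R k g)) ≤ ⨆ x ∈ s, W x := by
      refine iSup_le fun g => ?_
      rw [Submodule.map_span_le]
      intro x hx
      exact Submodule.mem_iSup_of_mem x (Submodule.mem_iSup_of_mem (by simpa using hx) (hW2 x g))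
    rw [← Module.Finite.iff_fg]
    exact Submodule.finiteDimensional_of_le hle
  have fgL : ∀ V : Submodule k H, V.FG → (⨆ g, V.map (FLAG_L k g)).FG := by
    rintro _ ⟨s, rfl⟩
    choose W hW1 hW2 using fun x : H => FLAG_finL k (Coalgebra.comul (R := k) x)
    have : Module.Finite k ↥(⨆ x ∈ s, W x) := by
      rw [Module.Finite.iff_fg]
      exact Submodule.fg_biSup s W (fun x _ => hW1 x)
    have hle : (⨆ g, (Submodule.span k (s : Set H)).map (FLAG_L k g)) ≤ ⨆ x ∈ s, W x := by
      refine iSup_le fun g => ?_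
      rw [Submodule.map_span_le]
      intro x hx
      exact Submodule.mem_iSup_of_mem x (Submodule.mem_iSup_of_mem (by simpa using hx) (hW2 x g))
    rw [← Module.Finite.iff_fg]
    exact Submodule.finiteDimensional_of_le hle
  set V := Submodule.span k {x, (1 : H)} with hV
  have hVfg : V.FG := Submodule.fg_span (by simp)
  have hVU : V ≤ U k H n := by
    rw [hV, Submodule.span_le]
    rintro y (rfl | rfl)
    · exact hx
    · exact one_mem_U k n
  set U₁ := ⨆ g, V.map (FLAG_R k g) with hU₁
  set U₂ := ⨆ g, U₁.map (FLAG_L k g) with hU₂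
  have h01 : V ≤ U₁ := fun x hx => Submodule.mem_iSup_of_mem (Coalgebra.counit (R := k))
    ⟨x, hx, FLAG_Rcounit k x⟩
  have h12 : U₁ ≤ U₂ := fun x hx => Submodule.mem_iSup_of_mem (Coalgebra.counit (R := k))
    ⟨x, hx, FLAG_Lcounit k x⟩
  have h1U : U₁ ≤ U k H n := by
    refine iSup_le fun g => ?_
    rw [Submodule.map_le_iff_le_comap]
    exact fun y hy => U_R k (hVU hy) g
  have h2U : U₂ ≤ U k H n := by
    refine iSup_le fun g => ?_
    rw [Submodule.map_le_iff_le_comap]
    exact fun y hy => U_L k (h1U hy) g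
  have h1R : ∀ f, ∀ x ∈ U₁, FLAG_R k f x ∈ U₁ := by
    intro f x hx
    have : U₁ ≤ U₁.comap (FLAG_R k f) := by
      rw [hU₁]
      refine iSup_le fun g' => ?_
      rw [Submodule.map_le_iff_le_comap]
      intro w hw
      simp only [Submodule.mem_comap]
      rw [FLAG_RR]
      exact Submodule.mem_iSup_of_mem _ (Submodule.mem_map_of_mem hw)
    exact this hx
  have hsub : IsSubcoalgebra k U₂ := by
    rw [FLAG_sub_iff]
    constructor
    · intro f x hx
      have : U₂ ≤ U₂.comap (FLAG_L k f) := by
        rw [hU₂]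
        refine iSup_le fun g' => ?_
        rw [Submodule.map_le_iff_le_comap]
        intro w hw
        simp only [Submodule.mem_comap]
        rw [FLAG_LL]
        exact Submodule.mem_iSup_of_mem _ (Submodule.mem_map_of_mem hw)
      exact this hx
    · intro f x hx
      have : U₂ ≤ U₂.comap (FLAG_R k f) := by
        rw [hU₂]
        refine iSup_le fun g' => ?_
        rw [Submodule.map_le_iff_le_comap]
        intro w hw
        simp only [Submodule.mem_comap]
        rw [← FLAG_LR]
        exact Submodule.mem_iSup_of_mem _ (Submodule.mem_map_of_mem (h1R f w hw))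
      exact this hx
  refine ⟨U₂, flagged_of_U k (n := n) (fgL _ (fgR _ hVfg)) hsub ?_ h2U, ?_⟩
  · exact h12 (h01 (Submodule.subset_span (by simp)))
  · exact h12 (h01 (Submodule.subset_span (by simp)))

end

end Pool.Agent.GKC
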